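import Pool.Agent.Lib_helper10.LIN.Ev
import Pool.Agent.Lib_helper78.FS.Game

/-!
# The plants
-/

set_option autoImplicit false

namespace Pool.Agent.LIN

open Pool.Agent.CK Pool.Agent.RF Pool.Agent.FS

/-- there is an `S`-proof of `Σ^b_1RFN_T(N)` or of `Con_T(N)` of length at most `L` -/
def Short (O : Lang) (S T : Th) (N L : ℕ) : Prop :=
  ∃ (l : List Fm) (Φ : Fm), (Φ = RFN T N ∨ Φ = RF.Con T N) ∧ IsProof (Ax O S) (l ++ [Φ]) ∧
    (pEnc (l ++ [Φ])).length ≤ L

/-- the parameters -/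
structure Prm where
  /-- the given oracle -/
  R : Lang
  /-- the theories -/
  en : ℕ → Th
  /-- the first stages -/
  g : ℕ → ℕ
  /-- the length function -/
  f : ℕ → ℕ
  /-- the levels -/
  lv : ℕ → ℕ
  /-- the pairs: the number of `S`, and `T` -/
  cl : ℕ → ℕ × Th

/-- the set `H` with the string `x` -/
def ins (x : List Bool) (H : Lang) : Lang := fun z => H z || decide (z = x)

theorem ins_iff (x z : List Bool) (H : Lang) : ins x H z = true ↔ H z = true ∨ z = x := by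
  unfold ins
  rw [Bool.or_eq_true, decide_eq_true_eq]

namespace Prm

variable (P : Prm)

/-- the number of the pair of level `s` -/
def ix (s : ℕ) : ℕ := (Nat.unpair s).1

/-- the stage of level `s` -/
def nz (s : ℕ) : ℕ := 2 ^ (P.lv s - 1)

/-- the bound on the length of the refutation of level `s` -/
def NN (s : ℕ) : ℕ := 4096 * P.nz s

/-- the prefix of the pair with number `m` -/
def pf (m : ℕ) : List Bool := pfxT (P.cl m).2 (P.cl m).1

/-- nothing changes in the small range of stage `n` -/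
def Keep (n : ℕ) (H H' : Lang) : Prop :=
  ∀ j, P.g j ≤ n → ∀ s : List Bool, s.length ≤ n + 1 → ∀ t ≤ clkS (P.en j).2 n,
    run (join P.R H') (P.en j).1 s [] t = run (join P.R H) (P.en j).1 s [] t

/-- the string `x` can be planted at level `s` -/
structure Pl (s : ℕ) (H : Lang) (x : List Bool) : Prop where
  act : P.g (P.cl (ix s)).1 ≤ P.nz s
  pre : (P.pf (ix s)).length ≤ P.lv s
  head : (P.pf (ix s)).head? = some true
  str : ∃ y, x = P.pf (ix s) ++ y ∧ y.length + 1 = 2 ^ (P.lv s + 1)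
  short : Short (join P.R (ins x H)) (P.en (P.cl (ix s)).1) (P.cl (ix s)).2 (P.NN s)
    (P.f (P.NN s))
  keep : P.Keep (P.nz s) H (ins x H)

open Classical in
/-- the plant of stage `n` -/
noncomputable def add (n : ℕ) (H : Lang) : Lang :=
  if h : ∃ x, ∃ s, n = P.nz s ∧ P.Pl s H x then ins h.choose H else H

theorem add_sub (n : ℕ) (H : Lang) (x : List Bool) (hx : H x = true) : P.add n H x = true := by
  unfold add
  split_ifs
  · exact (ins_iff _ _ _).2 (Or.inl hx)
  · exact hx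

theorem add_new {n : ℕ} {H : Lang} {x : List Bool} (hx : P.add n H x = true)
    (hx' : ¬ H x = true) : P.add n H = ins x H ∧ ∃ s, n = P.nz s ∧ P.Pl s H x := by
  unfold add at hx ⊢
  split_ifs at hx ⊢ with h
  · rcases (ins_iff _ _ _).1 hx with h1 | h1
    · exact absurd h1 hx'
    · rw [h1]
      exact ⟨rfl, h.choose_spec⟩
  · exact absurd hx hx'

theorem add_keep (n : ℕ) (H : Lang) : P.Keep n H (P.add n H) := by
  unfold add
  split_ifs with h
  · obtain ⟨s, hs, hp⟩ := h.choose_spec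
    have h1 := hp.keep
    rwa [← hs] at h1
  · exact fun _ _ _ _ _ _ => rfl

theorem add_of {s : ℕ} {H : Lang} {x : List Bool} (h : P.Pl s H x) :
    ∃ z, P.add (P.nz s) H = ins z H ∧ ∃ s', P.nz s = P.nz s' ∧ P.Pl s' H z := by
  have h1 : ∃ x, ∃ s', P.nz s = P.nz s' ∧ P.Pl s' H x := ⟨x, s, rfl, h⟩
  refine ⟨h1.choose, ?_, h1.choose_spec⟩
  unfold add
  rw [dif_pos h1]

/-- an asked string is not a plant -/
theorem join_ins {x q : List Bool} {H : Lang} (h : q ≠ true :: x) :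
    join P.R (ins x H) q = join P.R H q := by
  rcases q with _ | ⟨b, q⟩
  · rfl
  · cases b with
    | false => rfl
    | true =>
      show ins x H q = H q
      rw [Bool.eq_iff_iff, ins_iff]
      exact ⟨fun h1 => h1.resolve_right fun h2 => h (by rw [h2]), Or.inl⟩

theorem nz_lv {s : ℕ} (h8 : 8 ≤ P.lv s) : 2 ^ P.lv s = 2 * P.nz s ∧ 128 ≤ P.nz s := by
  unfold nz
  constructor
  · rw [← pow_succ']
    congr 1
    omega
  · calc 128 = 2 ^ 7 := by norm_num
      _ ≤ 2 ^ (P.lv s - 1) := Nat.pow_le_pow_right (by norm_num) (by omega)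

theorem plant_len {s : ℕ} {H : Lang} {x : List Bool} (h8 : 8 ≤ P.lv s) (h : P.Pl s H x) :
    4 * P.nz s ≤ x.length + 1 := by
  obtain ⟨y, rfl, hy⟩ := h.str
  have h1 := (P.nz_lv h8).1
  have h2 : 2 ^ (P.lv s + 1) = 2 * 2 ^ P.lv s := by rw [pow_succ']
  rw [List.length_append]
  omega

theorem plant_head {s : ℕ} {H : Lang} {x : List Bool} (h : P.Pl s H x) :
    x.head? = some true := by
  obtain ⟨y, rfl, -⟩ := h.str
  have h1 := h.head
  rcases hp : P.pf (ix s) with _ | ⟨b, p⟩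
  · rw [hp] at h1
    simp at h1
  · rw [hp] at h1
    simpa using h1

/-- if there is a short proof then something can be planted -/
theorem exists_plant (hg : StrictMono P.g)
    (hcost : ∀ s N, P.g s ≤ N → cost P.en (s + 1) N < 2 ^ N) {s : ℕ} {H : Lang}
    (h8 : 8 ≤ P.lv s) (h1 : P.g (P.cl (ix s)).1 ≤ P.nz s) (h2 : (P.pf (ix s)).length ≤ P.lv s)
    (h3 : (P.pf (ix s)).head? = some true)
    (h4 : (P.f (P.NN s) + 2) ^ ((P.en (P.cl (ix s)).1).2 + 2) ≤ 2 ^ P.nz s)
    (h5 : Short (join P.R H) (P.en (P.cl (ix s)).1) (P.cl (ix s)).2 (P.NN s) (P.f (P.NN s))) :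
    ∃ x, P.Pl s H x := by
  classical
  obtain ⟨l, Φ, hΦ, hl, hlen⟩ := h5
  set S := P.en (P.cl (ix s)).1 with hS
  set L := P.f (P.NN s) with hL
  obtain ⟨P1, hP1, hP2⟩ := exists_touch hg hcost (P.nz s) (join P.R H)
  obtain ⟨Q, hQ1, -, hQ2⟩ := proof_queries (join P.R H) S.1
    (fun σ => (σ.enc.length + 2) ^ S.2) (l ++ [Φ]) ((L + 2) ^ S.2) (L + (L + 2) ^ S.2)
    (fun σ hσ => by
      have g1 := QRY_mem_len hσ
      have g2 : (σ.enc.length + 2) ^ S.2 ≤ (L + 2) ^ S.2 := Nat.pow_le_pow_left (by omega) _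
      exact ⟨g2, by omega⟩) hl
  have hQ3 : Q.length ≤ 2 ^ P.nz s := by
    have g1 := QRY_lines (l ++ [Φ])
    have g2 : (l ++ [Φ]).length * (L + 2) ^ S.2 ≤ (L + 2) ^ 2 * (L + 2) ^ S.2 := by
      refine Nat.mul_le_mul_right _ ?_
      have : L + 2 ≤ (L + 2) ^ 2 := Nat.le_self_pow (by norm_num) _
      omega
    have g3 : (L + 2) ^ 2 * (L + 2) ^ S.2 = (L + 2) ^ (S.2 + 2) := by
      rw [Nat.add_comm S.2 2, pow_add]
    rw [g3] at g2
    exact hQ1.trans (g2.trans h4)
  have hz := P.nz_lv h8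
  have hm : 2 ^ (P.lv s + 1) = 4 * P.nz s := by
    rw [pow_succ', hz.1]
    ring
  have hcard : (P1 ∪ Q.toFinset).card < 2 ^ (4 * P.nz s - 1) := by
    refine lt_of_le_of_lt ((Finset.card_union_le _ _).trans
      (Nat.add_le_add hP1 ((List.toFinset_card_le _).trans hQ3))) ?_
    have g1 : 2 ^ P.nz s ≤ 2 ^ (2 * P.nz s + 2) := Nat.pow_le_pow_right (by norm_num) (by omega)
    have g2 : 2 ^ (2 * P.nz s + 3) = 2 * 2 ^ (2 * P.nz s + 2) := by rw [← pow_succ']
    have g3 : 2 ^ (2 * P.nz s + 3) < 2 ^ (4 * P.nz s - 1) :=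
      Nat.pow_lt_pow_right (by norm_num) (by omega)
    omega
  obtain ⟨y, hy1, hy2⟩ := exists_free hcard (fun w _ => true :: (P.pf (ix s) ++ w))
    (fun w w' _ _ h => List.append_cancel_left (List.cons.inj h).2)
  have hy3 := hy2 falsum
  have key : ∀ q ∈ P1 ∪ Q.toFinset,
      join P.R (ins (P.pf (ix s) ++ y) H) q = join P.R H q := fun q hq =>
    P.join_ins fun h => hy3 (h ▸ hq)
  refine ⟨P.pf (ix s) ++ y, h1, h2, h3, ⟨y, rfl, by omega⟩, ⟨l, Φ, hΦ, ?_, hlen⟩, ?_⟩
  · exact hQ2 _ fun q hq => key q (Finset.mem_union_right _ (List.mem_toFinset.2 hq))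
  · exact hP2 _ fun q hq => key q (Finset.mem_union_left _ hq)

end Prm

end Pool.Agent.LIN
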