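import Pool.Agent.Lib_helper10.LIN.Thm

/-!
# The theorem
-/

set_option autoImplicit false

namespace Pool.Agent.LIN

open Pool.Agent.CK Pool.Agent.RF Pool.Agent.RO Pool.Agent.ADV Pool.Agent.FS Pool.Agent.PLS Filter

/-- a theory with a false axiom about the plants -/
theorem refuted {O : Lang} {B : Fm → Prop} (hB : BaseD O B) {S T : Th} (hS : InT O B S)
    (hT : ∀ σ, B σ → Ax O T σ) {l N L : ℕ} {p y : List Bool} (h8 : 8 ≤ l)
    (hN : 2048 * 2 ^ l ≤ N) (hax : Ax O T (t1F l p)) (hp : p.length ≤ l)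
    (hy : y.length + 1 = 2 ^ (l + 1)) (hb : O (true :: (p ++ y)) = true)
    (hsh : Short O S T N L) : False := by
  obtain ⟨l', hl', hlen⟩ := t1F_refute (O := O) (A := Ax O T) hax
    (fun a b hab => hT _ (hB.leD a b hab)) (fun x hx => hT _ (hB.orcD x hx)) hp hy hb
  have h5 : 2 ^ 8 ≤ 2 ^ l := Nat.pow_le_pow_right (by norm_num) h8
  have hn : (pEnc (l' ++ [falsum])).length + 4000 ≤ N := by omega
  obtain ⟨hc, hr⟩ := proof_false hl' hn
  obtain ⟨q, Φ, hΦ | hΦ, hq, -⟩ := hsh
  · subst hΦ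
    have h1 : ¬ (RFN T N).True O := fun hh =>
      hr ((holds_RFN O (fun _ => 0) T _).mp (hh _))
    exact hS.cons (prv_bot ⟨q, hq⟩ (prv_mono hS.ext (hB.refRFN T _ h1)))
  · subst hΦ
    have h1 : ¬ (RF.Con T N).True O := fun hh =>
      hc ((holds_Con O (fun _ => 0) T _).mp (hh _))
    exact hS.cons (prv_bot ⟨q, hq⟩ (prv_mono hS.ext (hB.refCon T _ h1)))

theorem exists_levels {g : ℕ → ℕ} (en : ℕ → Th) (f : ℕ → ℕ) (R : Lang) (cl : ℕ → ℕ × Th) :
    ∃ lv : ℕ → ℕ, StrictMono lv ∧ (∀ s, 8 ≤ lv s) ∧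
      ∀ s, bnd ⟨R, en, g, f, lv, cl⟩ (lv s) < lv (s + 1) := by
  obtain ⟨lv, h1, h2⟩ := SEQ_gen (P := fun _ m => 8 ≤ m) (fun _ => eventually_ge_atTop 8)
    (fun _ m => f (4096 * 2 ^ (m - 1)) + 2 +
      ∑ j ∈ act g (2 ^ (m - 1)), clkS (en j).2 (f (4096 * 2 ^ (m - 1))))
  exact ⟨lv, h1, fun s => (h2 s).1, fun s => (h2 s).2⟩

section

variable {P : Prm} {wd : ℕ → Lang → List Bool} (h : Good P wd)
include h

theorem upper (hen : Function.Surjective P.en) :
    Upper (dat P wd).OF (fun n => 17 * P.f (4096 * n)) := by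
  intro B hB
  have hok := dat_ok h
  obtain ⟨S, hS, hax⟩ := adv_S hB.1.toBase (Dat.code_ok hok)
  have key : ∀ (j : ℕ) (Φ : ℕ → Fm), (∀ k, Φ k = RFN (P.en j) k ∨ Φ k = RF.Con (P.en j) k) →
      (∀ k, (Φ k).True (dat P wd).OF) →
      (∃ K, ∀ k, (Φ k).enc.length ≤ 96 * Nat.size k + K) →
      ∃ c, ∀ n, ∃ l : List Fm, IsProof (Ax (dat P wd).OF S) (l ++ [Φ n]) ∧
        (pEnc (l ++ [Φ n])).length ≤ 17 * P.f (4096 * n) + c := by
    rintro j Φ h1 h2 ⟨K, hK⟩
    obtain ⟨c, hc⟩ := size_small 192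
    refine ⟨16 * P.f (4096 * P.g j) + 89 + 2 * K + c, fun k => ?_⟩
    have h3 : Sent (dat P wd).en (dat P wd).g (max k (P.g j)) (Φ k) :=
      ⟨j, k, le_max_right _ _, le_max_left _ _, h1 k⟩
    obtain ⟨l, hl1, hl2⟩ := padW_proof (hax _ (Dat.code_full hok h3 (h2 k)))
    refine ⟨l, hl1, hl2.trans ?_⟩
    have h4 : ((dat P wd).ws (max k (P.g j))).length =
        2 * P.f (4096 * max k (P.g j)) + 3 := Dat.ws_len hok _
    have h5 := hK k
    have h6 := hc k
    have h7 : P.f (4096 * max k (P.g j)) ≤ P.f (4096 * k) + P.f (4096 * P.g j) := by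
      rcases le_total k (P.g j) with h8 | h8
      · rw [max_eq_right h8]; omega
      · rw [max_eq_left h8]; omega
    have h8 := h.fle k
    rw [h4]
    omega
  refine ⟨S, hS, fun T hT => ?_⟩
  obtain ⟨j, rfl⟩ := hen T
  obtain ⟨c1, hc1⟩ := key j (RFN (P.en j)) (fun k => Or.inl rfl)
    (fun k => rfn_true hB.1.toBase hT k) (rfn_len _)
  obtain ⟨c2, hc2⟩ := key j (RF.Con (P.en j)) (fun k => Or.inr rfl)
    (fun k v => (holds_Con _ v _ k).2 (inT_conT hT k)) (con_len _)
  refine ⟨c1 + c2, fun n => ⟨?_, ?_⟩⟩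
  · obtain ⟨l, hl1, hl2⟩ := hc1 n
    exact ⟨l, hl1, hl2.trans (Nat.add_le_add_left (Nat.le_add_right _ _) _)⟩
  · obtain ⟨l, hl1, hl2⟩ := hc2 n
    exact ⟨l, hl1, hl2.trans (Nat.add_le_add_left (Nat.le_add_left _ _) _)⟩

theorem lower (hen : Function.Surjective P.en) (hcl : Function.Surjective P.cl)
    (hf2 : ∀ k, ∀ᶠ n in atTop, P.f n ^ k ≤ 2 ^ n) : Lower (dat P wd).OF P.f := by
  intro B hB S hS
  have hok := dat_ok h
  set O := (dat P wd).OF with hO
  obtain ⟨j, rfl⟩ := hen S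
  obtain ⟨T, hTh, hax⟩ := exists_T hB.1 j
  have hext : ∀ σ, B σ → Ax O T σ := fun σ hσ => (hax σ).mpr (Or.inl hσ)
  -- the prefix
  have hfal : ¬ Ax O T falsum := by
    intro hf
    rcases (hax _).1 hf with h1 | ⟨l, -, h1⟩
    · exact hB.1.isTrue _ h1 (fun _ => 0) rfl
    · simp [falsum, t1F] at h1
  have hh : (pfxT T j).head? = some true := by
    obtain ⟨l, hl⟩ := head_cmd (not_skip hfal)
    unfold pfxT
    rw [hl]
    rfl
  -- nothing is planted
  have hno : ∀ y, ¬ O (true :: (pfxT T j ++ y)) = true := by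
    intro y hy
    obtain ⟨s, -, h2, h3, h4⟩ := planted h hy hh
    refine refuted (l := P.lv s) hB.1 hS hext (h.l8 s) ?_
      ((hax _).2 (Or.inr ⟨P.lv s, h.l8 s, rfl⟩)) h2 h3 hy h4
    have h5 := (P.nz_lv (h.l8 s)).1
    unfold Prm.NN
    omega
  have htrue : ∀ σ, Ax O T σ → σ.True O := by
    intro σ hσ
    rcases (hax σ).mp hσ with h1 | ⟨l, -, rfl⟩
    · exact hB.1.isTrue σ h1
    · exact t1F_true fun y _ hy => hno y hy
  have hT : InT O B T := by
    refine ⟨hTh, hext, fun σ hσ => ?_, fun hp => ?_⟩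
    · rcases (hax σ).mp hσ with h1 | ⟨l, -, rfl⟩
      · exact hB.1.closed σ h1
      · exact t1F_closed _ _
    · exact sound htrue hp (fun _ => 0) rfl
  refine ⟨T, hT, fun m' => ?_⟩
  -- a good level
  obtain ⟨m, hm⟩ := hcl (j, T)
  obtain ⟨n1, hn1⟩ := (root_num h.fle hf2 ((P.en j).2 + 2)).exists_forall_of_atTop
  set b := P.g j + (pfxT T j).length + n1 + m' with hb
  set s := Nat.pair m b with hs
  have hbs : b ≤ s := Nat.right_le_pair _ _
  have hix : Prm.ix s = m := by
    unfold Prm.ix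
    rw [hs, Nat.unpair_pair]
  have hcs : P.cl (Prm.ix s) = (j, T) := by rw [hix]; exact hm
  have hpf : P.pf (Prm.ix s) = pfxT T j := by
    unfold Prm.pf
    rw [hcs]
  have hz := le_nz h s
  have hl := le_lv h s
  have hshort : ¬ Short O (P.en j) T (P.NN s) (P.f (P.NN s)) := by
    intro h1
    have hact : P.g j ≤ P.nz s := by omega
    have h2 := (short_iff h hact).1 h1
    by_cases hadd : P.add (P.nz s) ((dat P wd).HS (P.nz s)) = (dat P wd).HS (P.nz s)
    · have h3 : (dat P wd).OA (P.nz s) = join P.R ((dat P wd).HS (P.nz s)) := by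
        show join P.R (P.add (P.nz s) ((dat P wd).HS (P.nz s))) = _
        rw [hadd]
      rw [h3] at h2
      obtain ⟨x, hx⟩ := P.exists_plant h.gm h.cost (s := s) (H := (dat P wd).HS (P.nz s)) (h.l8 s)
        (by rw [hcs]; exact hact) (by rw [hpf]; omega) (by rw [hpf]; exact hh)
        (by rw [hcs]; exact hn1 (P.nz s) (by omega)) (by rw [hcs]; exact h2)
      obtain ⟨z, hz1, s', hs', hz2⟩ := P.add_of hx
      have h4 := nz_inj h hs'
      subst h4
      obtain ⟨y, hy, -⟩ := hz2.str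
      refine hno y ?_
      show (dat P wd).HF (pfxT T j ++ y) = true
      rw [Dat.HF_iff]
      refine ⟨P.nz s, ?_⟩
      show P.add (P.nz s) ((dat P wd).HS (P.nz s)) (pfxT T j ++ y) = true
      rw [hz1, ins_iff, hy, hpf]
      exact Or.inr rfl
    · -- a plant was added
      have h3 : ∃ x, P.add (P.nz s) ((dat P wd).HS (P.nz s)) x = true ∧
          ¬ (dat P wd).HS (P.nz s) x = true := by
        by_contra hcon
        push Not at hcon
        refine hadd (funext fun x => ?_)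
        rw [Bool.eq_iff_iff]
        exact ⟨hcon x, P.add_sub _ _ x⟩
      obtain ⟨x, hx1, hx2⟩ := h3
      obtain ⟨-, s', hs', hp⟩ := P.add_new hx1 hx2
      have h4 := nz_inj h hs'
      subst h4
      obtain ⟨y, hy, -⟩ := hp.str
      refine hno y ?_
      show (dat P wd).HF (pfxT T j ++ y) = true
      rw [Dat.HF_iff]
      refine ⟨P.nz s, ?_⟩
      rw [hy, hpf] at hx1
      exact hx1
  refine ⟨P.NN s, ?_, fun l => ⟨fun h1 => ?_, fun h1 => ?_⟩⟩
  · unfold Prm.NN
    omega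
  · by_contra hcon
    exact hshort ⟨l, _, Or.inl rfl, h1, Nat.not_lt.1 hcon⟩
  · by_contra hcon
    exact hshort ⟨l, _, Or.inr rfl, h1, Nat.not_lt.1 hcon⟩

theorem sparse : Few (fun n => n ^ 5 + 5) (dat P wd).HF := by
  classical
  have hok := dat_ok h
  intro N
  set F : Finset (ℕ × ℕ × ℕ) :=
    Finset.range N ×ˢ Finset.range N ×ˢ Finset.range N with hF
  set f : Bool → ℕ × ℕ × ℕ → List Bool := fun b p =>
    cdw ((dat P wd).ws p.1)
      (if b = true then RFN (P.en p.2.1) p.2.2 else RF.Con (P.en p.2.1) p.2.2) with hf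
  set G : ℕ → List Bool := fun n =>
    if hx : ∃ x, (dat P wd).AS n x = true ∧ ¬ (dat P wd).HS n x = true then hx.choose else []
    with hG
  have hGx : ∀ n x, (dat P wd).AS n x = true → ¬ (dat P wd).HS n x = true → x = G n := by
    intro n x hx1 hx2
    have hx : ∃ x, (dat P wd).AS n x = true ∧ ¬ (dat P wd).HS n x = true := ⟨x, hx1, hx2⟩
    have h1 : G n = hx.choose := by
      rw [hG]
      simp only
      rw [dif_pos hx]
    obtain ⟨h2, -⟩ := P.add_new (n := n) (H := (dat P wd).HS n) hx1 hx2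
    have h3 := hx.choose_spec
    have h4 : ins x ((dat P wd).HS n) hx.choose = true := by
      rw [← h2]
      exact h3.1
    rw [h1]
    exact ((ins_iff _ _ _).1 h4).resolve_left h3.2 |>.symm
  have h1 : {x : List Bool | x.length ≤ N ∧ (dat P wd).HF x = true} ⊆
      ((F.image (f true) ∪ F.image (f false) ∪ (Finset.range (N + 1)).image G :
        Finset (List Bool)) : Set (List Bool)) := by
    rintro x ⟨hx, hx2⟩
    rw [Finset.mem_coe, Finset.mem_union, Finset.mem_union]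
    rcases Dat.HF_elem' hok hx2 with ⟨n, σ, ⟨j, k, hj, hk, h2⟩, -, h3⟩ | ⟨n, h2, h3⟩
    · have h4 := h.gm.le_apply (x := j)
      have h5 := Dat.code_long hok (k := n) (σ := σ)
      have h6 := hok.le n
      have h7 : P.g j ≤ n := hj
      rw [← h3] at h5
      have h8 : (n, j, k) ∈ F := by
        rw [hF, Finset.mem_product, Finset.mem_product, Finset.mem_range, Finset.mem_range,
          Finset.mem_range]
        refine ⟨?_, ?_, ?_⟩ <;> simp only <;> omega
      rcases h2 with h2 | h2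
      · exact Or.inl (Or.inl (Finset.mem_image.2 ⟨_, h8, by rw [h3, h2, hf]; simp; rfl⟩))
      · exact Or.inl (Or.inr (Finset.mem_image.2 ⟨_, h8, by rw [h3, h2, hf]; simp; rfl⟩))
    · refine Or.inr (Finset.mem_image.2 ⟨n, ?_, (hGx n x h2 h3).symm⟩)
      have h4 := (hok.new n _ x h2 h3).1
      rw [Finset.mem_range]
      omega
  refine (Set.ncard_le_ncard h1 (Finset.finite_toSet _)).trans ?_
  rw [Set.ncard_coe_finset]
  have h2 : (F.image (f true) ∪ F.image (f false) ∪ (Finset.range (N + 1)).image G).card ≤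
      (N ^ 3 + N ^ 3) + (N + 1) := by
    have hFc : F.card = N ^ 3 := by
      rw [hF, Finset.card_product, Finset.card_product, Finset.card_range]
      ring
    refine (Finset.card_union_le _ _).trans (Nat.add_le_add ?_ ?_)
    · refine (Finset.card_union_le _ _).trans (Nat.add_le_add ?_ ?_)
      · exact Finset.card_image_le.trans hFc.le
      · exact Finset.card_image_le.trans hFc.le
    · exact Finset.card_image_le.trans (Finset.card_range _).le
  refine h2.trans ?_
  show (N ^ 3 + N ^ 3) + (N + 1) ≤ N ^ 5 + 5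
  rcases Nat.lt_or_ge N 2 with h | h
  · interval_cases N <;> simp
  · have h3 : N ^ 5 = N ^ 3 * (N * N) := by ring
    have h4 : 4 ≤ N * N := by nlinarith
    have h5 := Nat.mul_le_mul_left (N ^ 3) h4
    have h6 : N ≤ N ^ 3 := Nat.le_self_pow (by norm_num) N
    omega

end

/-- **Every growth rate is the length of the proofs of finite reflection, relative to `R ⊕ W` for a
sparse `W`.** -/
theorem spectrum (R : Lang) {h : ℕ → ℕ} (h0 : Monotone h) (h1 : ∀ n, n ≤ h n)
    (h2 : ∀ k, ∀ᶠ n in atTop, h n ^ k ≤ 2 ^ n) :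
    ∃ W : Lang, Few (fun n => n ^ 5 + 5) W ∧ (∃ B, BaseTheory (join R W) B) ∧
      Upper (join R W) (fun n => 17 * h n) ∧ Lower (join R W) (fun n => h (n / 4096)) := by
  set f : ℕ → ℕ := fun n => h (n / 4096) with hf
  have hfe : ∀ n, f (4096 * n) = h n := fun n => by
    show h (4096 * n / 4096) = h n
    rw [Nat.mul_div_cancel_left _ (by norm_num)]
  have hf2 : ∀ k, ∀ᶠ n in atTop, f n ^ k ≤ 2 ^ n := by
    intro k
    have g1 : Tendsto (fun n : ℕ => n / 4096) atTop atTop :=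
      Nat.tendsto_div_const_atTop (by norm_num)
    filter_upwards [g1.eventually (h2 k)] with n hn
    exact hn.trans (Nat.pow_le_pow_right (by norm_num) (Nat.div_le_self _ _))
  obtain ⟨en, hen⟩ := exists_ths
  obtain ⟨cl, hcl⟩ := exists_pairs
  obtain ⟨g, hg, hcost⟩ := exists_act en
  obtain ⟨lv, g1, g2, g3⟩ := exists_levels (g := g) en f R cl
  choose wd hwd using fun n O => exists_word (en := en) hg hcost (f (4096 * n)) O
  have hG : Good ⟨R, en, g, f, lv, cl⟩ wd :=
    ⟨hg, hcost, fun a b hab => h0 (Nat.div_le_div_right hab), fun n => (h1 n).trans (hfe n).ge,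
      hwd, g1, g2, g3⟩
  have hup := upper hG hen
  refine ⟨(dat ⟨R, en, g, f, lv, cl⟩ wd).HF, sparse hG, base_all _, ?_, lower hG hen hcl hf2⟩
  have e1 : (fun n => 17 * (Prm.mk R en g f lv cl).f (4096 * n)) = fun n => 17 * h n :=
    funext fun n => congrArg (17 * ·) (hfe n)
  rw [e1] at hup
  exact hup

end Pool.Agent.LIN
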