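import Pool.Agent.Lib_helper10.LIN.Plant
import Pool.Agent.Lib_helper78.PLS.Defs
import Pool.Agent.Lib_helper78.ADV.Rfn
import Pool.Agent.Lib_helper78.FS.False
import Pool.Agent.Lib_helper78.RO.F.BAL

/-!
# Every growth rate is the length of the proofs of finite reflection
-/

set_option autoImplicit false

namespace Pool.Agent.LIN

open Pool.Agent.CK Pool.Agent.RF Pool.Agent.RO Pool.Agent.ADV Pool.Agent.FS Pool.Agent.PLS Filter

/-- For every base theory some `S` in the class has, for all `T` in the class, proofs of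
`Σ^b_1RFN_T(n)` and `Con_T(n)` of length at most `h n + c`. -/
def Upper (O : Lang) (h : ℕ → ℕ) : Prop := ∀ B, BaseTheory O B → ∃ S, InT O B S ∧
  ∀ T, InT O B T → ∃ c : ℕ, ∀ n,
    (∃ l : List Fm, IsProof (Ax O S) (l ++ [RFN T n]) ∧
      (pEnc (l ++ [RFN T n])).length ≤ h n + c) ∧
    ∃ l : List Fm, IsProof (Ax O S) (l ++ [RF.Con T n]) ∧
      (pEnc (l ++ [RF.Con T n])).length ≤ h n + c

/-- For every base theory and every `S` in the class there is `T` in the class such that for
infinitely many `n` all `S`-proofs of `Σ^b_1RFN_T(n)` and of `Con_T(n)` are longer than `f n`. -/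
def Lower (O : Lang) (f : ℕ → ℕ) : Prop := ∀ B, BaseTheory O B → ∀ S, InT O B S →
  ∃ T, InT O B T ∧ ∀ m, ∃ n, m ≤ n ∧ ∀ l : List Fm,
    (IsProof (Ax O S) (l ++ [RFN T n]) → f n < (pEnc (l ++ [RFN T n])).length) ∧
    (IsProof (Ax O S) (l ++ [RF.Con T n]) → f n < (pEnc (l ++ [RF.Con T n])).length)

/-! ## Lengths -/

theorem size_small (a : ℕ) : ∃ c, ∀ n, a * Nat.size n ≤ n + c := by
  have h : ∀ᶠ m : ℕ in Filter.atTop, a * m + a < 2 ^ m :=
    SEQ_lt (SEQ_add (SEQ_mul (SEQ_const a) SEQ_id) (SEQ_const a))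
  obtain ⟨N, hN⟩ := h.exists_forall_of_atTop
  refine ⟨a * N + a, fun n => ?_⟩
  by_cases h1 : Nat.size n ≤ N
  · have := Nat.mul_le_mul_left a h1
    omega
  · obtain ⟨m, hm⟩ : ∃ m, Nat.size n = m + 1 := ⟨Nat.size n - 1, by omega⟩
    have h2 : 2 ^ m ≤ n := by
      rw [← Nat.lt_size, hm]
      exact Nat.lt_succ_self m
    have h3 := hN m (by omega)
    have h4 : a * (m + 1) = a * m + a := by ring
    rw [hm, h4]
    omega

theorem rfn_len (T : Th) : ∃ K : ℕ, ∀ n, (RFN T n).enc.length ≤ 96 * Nat.size n + K := by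
  refine ⟨(RFN T 0).enc.length + 8, fun n => ?_⟩
  have h1 : (num 0).enc.length = 2 := by simp [num, Tm.enc, tag]
  have h3 : (RFN T n).enc.length + 8 = (RFN T 0).enc.length + 4 * (num n).enc.length := by
    simp only [RFN, Fm.and, Fm.enc, tag, List.length_append, List.length_replicate,
      List.length_cons, List.length_nil, h1]
    omega
  have h4 := num_len n
  omega

theorem con_len (T : Th) : ∃ K : ℕ, ∀ n, (RF.Con T n).enc.length ≤ 96 * Nat.size n + K := by
  refine ⟨(RF.Con T 0).enc.length + 8, fun n => ?_⟩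
  have h1 : (num 0).enc.length = 2 := by simp [num, Tm.enc, tag]
  have h3 : (RF.Con T n).enc.length + 2 = (RF.Con T 0).enc.length + (num n).enc.length := by
    simp only [RF.Con, Fm.enc, tag, List.length_append, List.length_replicate,
      List.length_cons, List.length_nil, h1]
    omega
  have h4 := num_len n
  omega

/-! ## The theories -/

theorem th_countable : Countable Th := by
  have : Countable Cmd := Function.Injective.countable cEnc_inj
  infer_instance

theorem exists_ths : ∃ en : ℕ → Th, Function.Surjective en := by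
  have := th_countable
  have : Nonempty Th := ⟨(Cmd.skip, 0)⟩
  exact exists_surjective_nat Th

theorem exists_pairs : ∃ cl : ℕ → ℕ × Th, Function.Surjective cl := by
  have := th_countable
  have : Nonempty (ℕ × Th) := ⟨(0, (Cmd.skip, 0))⟩
  exact exists_surjective_nat (ℕ × Th)

theorem head_cmd {c : Cmd} (h : c ≠ Cmd.skip) : ∃ l, cEnc c = true :: l := by
  cases c with
  | skip => exact absurd rfl h
  | push r b => exact ⟨_, rfl⟩
  | pop r => exact ⟨_, rfl⟩
  | seq c d => exact ⟨_, rfl⟩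
  | cond r b c d => exact ⟨_, rfl⟩
  | loop r c => exact ⟨_, rfl⟩
  | ask r c d => exact ⟨_, rfl⟩

theorem not_skip {O : Lang} {T : Th} (h : ¬ Ax O T falsum) : T.1 ≠ Cmd.skip := by
  intro hs
  refine h ?_
  unfold Ax Accepts
  rw [hs]
  have h1 : 1 ≤ (falsum.enc.length + 2) ^ T.2 := Nat.one_le_pow _ _ (by omega)
  obtain ⟨t, ht⟩ := Nat.exists_eq_add_of_le h1
  have h2 : run O Cmd.skip falsum.enc [] (1 + t) = ([], init falsum.enc []) := by
    unfold run
    rw [Nat.add_comm, Function.iterate_succ_apply]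
    exact prog1_iter_nil O _ t
  rw [ht, h2]
  exact ⟨rfl, rfl⟩

/-! ## Numbers -/

theorem root_num {f : ℕ → ℕ} (hf1 : ∀ n, n ≤ f (4096 * n)) (hf2 : ∀ k, ∀ᶠ n in atTop, f n ^ k ≤ 2 ^ n)
    (K : ℕ) : ∀ᶠ n in atTop, (f (4096 * n) + 2) ^ K ≤ 2 ^ n := by
  have h1 : ∀ᶠ N in atTop, f N ^ (2 * K * 4096) ≤ 2 ^ N := hf2 _
  have h2 : Tendsto (fun n : ℕ => 4096 * n) atTop atTop := by
    rw [tendsto_atTop]
    intro b
    filter_upwards [eventually_ge_atTop b] with n hn
    omega
  filter_upwards [h2.eventually h1, eventually_ge_atTop 2] with n h3 h4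
  have h5 : f (4096 * n) ^ (2 * K) ≤ 2 ^ n := by
    rw [pow_mul, mul_comm 4096 n, pow_mul 2 n] at h3
    rw [mul_comm 4096 n]
    exact (Nat.pow_le_pow_iff_left (by norm_num)).1 h3
  refine le_trans ?_ h5
  rw [pow_mul]
  refine Nat.pow_le_pow_left ?_ K
  have h6 := hf1 n
  nlinarith

end Pool.Agent.LIN
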