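import Pool.Agent.Lib_helper10.LIN.LenDef
import Pool.Agent.Lib_helper10.LIN.Spec
import Pool.Agent.Lib_helper57.PX.IsoB

/-! # Comparison of the definitions of the lengths of proofs (MP_5c38ab_lc) -/

set_option autoImplicit false

namespace Pool.Agent.PX

theorem lengths_iff (O : Lang) (lo hi : ℕ → ℕ) :
    ((∃ B, PLS.BaseTheory O B) ∧ LIN.Upper O hi ∧ LIN.Lower O lo) ↔ LengthsBetween O lo hi := by
  unfold LIN.Upper LIN.Lower LengthsBetween
  rw [exB, allB, allB, ← forall_and]
  simp only [base_oB]
  refine and_congr Iff.rfl (forall_congr' fun B => ?_)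
  rw [← imp_and]
  refine imp_congr Iff.rfl (and_congr ?_ ?_)
  · rw [exTh]
    refine exists_congr fun p => exists_congr fun k => and_congr (inT_iff O B p k) ?_
    rw [allTh]
    refine forall_congr' fun q => forall_congr' fun m => imp_congr (inT_iff O B q m)
      (exists_congr fun c => forall_congr' fun n => ?_)
    rw [← rfn_eq, ← con_eq]
    exact and_congr (proofOf_iff (ax_iff O p k) (RFN q m n) (fun x => x.length ≤ hi n + c))
      (proofOf_iff (ax_iff O p k) (Con q m n) (fun x => x.length ≤ hi n + c))
  · rw [allTh]
    refine forall_congr' fun p => forall_congr' fun k => imp_congr (inT_iff O B p k) ?_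
    rw [exTh]
    refine exists_congr fun q => exists_congr fun m => and_congr (inT_iff O B q m)
      (forall_congr' fun n₀ => exists_congr fun n => and_congr Iff.rfl ?_)
    rw [← rfn_eq, ← con_eq]
    have h1 := allProofs_iff (ax_iff O p k) (RFN q m n) (fun x => lo n < x.length)
    have h2 := allProofs_iff (ax_iff O p k) (Con q m n) (fun x => lo n < x.length)
    rw [forall_and]
    refine (and_congr h1 h2).trans ?_
    constructor
    · rintro ⟨h3, h4⟩ l (h5 | h5)
      · exact h3 l h5
      · exact h4 l h5
    · exact fun h3 => ⟨fun l h5 => h3 l (Or.inl h5), fun l h5 => h3 l (Or.inr h5)⟩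

end Pool.Agent.PX
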