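import Pool.Agent.Lib_helper10.LIN.Pad
import Pool.Agent.Lib_helper78.RF.F.SEQ
import Pool.Agent.Lib_helper78.RF.F.QRY

/-!
# Slow activation of the theories, and the choice of a word
-/

set_option autoImplicit false

namespace Pool.Agent.LIN

open Pool.Agent.CK Pool.Agent.RF

/-! ## Activation -/

theorem pb_clk (k : ℕ) : SEQ_PB (fun m => clkS k m) := by
  induction k with
  | zero => exact SEQ_const 1
  | succ k ih => exact SEQ_add (SEQ_mul ih (SEQ_add SEQ_id (SEQ_const 2))) (SEQ_const 1)

/-- the cost of the first `m` theories at stage `N` -/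
def cost (en : ℕ → Th) (m N : ℕ) : ℕ := ∑ j ∈ Finset.range m, (clkS (en j).2 N + 1) ^ 2

theorem pb_cost (en : ℕ → Th) (m : ℕ) : SEQ_PB (fun N => cost en m N) := by
  induction m with
  | zero =>
    have h : (fun N => cost en 0 N) = fun _ => 0 := by
      funext N
      simp [cost]
    rw [h]
    exact SEQ_const 0
  | succ m ih =>
    have h : (fun N => cost en (m + 1) N) =
        fun N => cost en m N + (clkS (en m).2 N + 1) ^ 2 := by
      funext N
      simp [cost, Finset.sum_range_succ]
    rw [h]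
    exact SEQ_add ih (SEQ_pow (SEQ_add (pb_clk _) (SEQ_const 1)) 2)

theorem exists_act (en : ℕ → Th) : ∃ g : ℕ → ℕ, StrictMono g ∧
    ∀ s N, g s ≤ N → cost en (s + 1) N < 2 ^ N := by
  have h : ∀ s, ∀ᶠ m : ℕ in Filter.atTop, ∀ N, m ≤ N → cost en (s + 1) N < 2 ^ N := fun s =>
    Filter.eventually_forall_ge_atTop.2 (SEQ_lt (pb_cost en (s + 1)))
  obtain ⟨g, hg1, hg2⟩ := SEQ_gen (P := fun s m => ∀ N, m ≤ N → cost en (s + 1) N < 2 ^ N) h
    (fun _ _ => 0)
  exact ⟨g, hg1, fun s N hN => (hg2 s).1 N hN⟩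

/-- the theories that are active at stage `n` -/
def act (g : ℕ → ℕ) (n : ℕ) : Finset ℕ := (Finset.range (n + 1)).filter fun j => g j ≤ n

theorem mem_act {g : ℕ → ℕ} (hg : StrictMono g) {n j : ℕ} : j ∈ act g n ↔ g j ≤ n := by
  unfold act
  rw [Finset.mem_filter, Finset.mem_range]
  have := hg.le_apply (x := j)
  constructor
  · exact fun h => h.2
  · exact fun h => ⟨by omega, h⟩

theorem act_cost {en : ℕ → Th} {g : ℕ → ℕ} (hg : StrictMono g)
    (h : ∀ s N, g s ≤ N → cost en (s + 1) N < 2 ^ N) (n : ℕ) :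
    ∑ j ∈ act g n, (clkS (en j).2 n + 1) ^ 2 ≤ 2 ^ n := by
  rcases (act g n).eq_empty_or_nonempty with h0 | h0
  · rw [h0, Finset.sum_empty]
    exact Nat.zero_le _
  · set s := (act g n).max' h0 with hs
    have h1 : s ∈ act g n := Finset.max'_mem _ _
    refine le_trans ?_ (h s n ((mem_act hg).1 h1)).le
    unfold cost
    refine Finset.sum_le_sum_of_subset fun j hj => ?_
    rw [Finset.mem_range]
    exact Nat.lt_succ_of_le (Finset.le_max' _ _ hj)

/-! ## The strings of bounded length -/

/-- the strings of length at most `k` -/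
noncomputable def strs (k : ℕ) : Finset (List Bool) := (List.finite_length_le Bool k).toFinset

theorem mem_strs {k : ℕ} {s : List Bool} : s ∈ strs k ↔ s.length ≤ k := by
  unfold strs
  rw [Set.Finite.mem_toFinset]
  exact Iff.rfl

theorem strs_card (k : ℕ) : (strs k).card ≤ 2 ^ (k + 1) := by
  rw [← Finset.card_range (2 ^ (k + 1))]
  refine Finset.card_le_card_of_injOn val (fun s hs => ?_) val_inj.injOn
  have h1 := mem_strs.1 (Finset.mem_coe.1 hs)
  have h2 := (VAL_bounds s).2
  have h3 : 2 ^ (s.length + 1) ≤ 2 ^ (k + 1) := Nat.pow_le_pow_right (by norm_num) (by omega)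
  rw [Finset.coe_range, Set.mem_Iio]
  omega

/-! ## The strings that are asked -/

/-- the strings asked by the theories which are active at stage `n` on the strings of length at
most `n + 1`, within the clock of the proofs of length `n` -/
theorem exists_touch {en : ℕ → Th} {g : ℕ → ℕ} (hg : StrictMono g)
    (h : ∀ s N, g s ≤ N → cost en (s + 1) N < 2 ^ N) (n : ℕ) (O : Lang) :
    ∃ P : Finset (List Bool), P.card ≤ 2 ^ (2 * n + 2) ∧
      ∀ O' : Lang, (∀ q ∈ P, O' q = O q) →
        ∀ j, g j ≤ n → ∀ s : List Bool, s.length ≤ n + 1 → ∀ t ≤ clkS (en j).2 n,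
          run O' (en j).1 s [] t = run O (en j).1 s [] t := by
  classical
  have hQ : ∀ (j : ℕ) (s : List Bool) (t : ℕ), ∃ Q : List (List Bool), Q.length ≤ t ∧
      ∀ O' : Lang, (∀ q ∈ Q, O' q = O q) →
        run O' (en j).1 s [] t = run O (en j).1 s [] t := fun j s t => by
    obtain ⟨Q, h1, -, h3⟩ := run_queries O (en j).1 s [] t (s.length + t) le_rfl
      (by rw [List.length_nil]; omega)
    exact ⟨Q, h1, h3⟩
  choose Q hQ1 hQ2 using hQ
  set P : Finset (List Bool) := (act g n).biUnion fun j => (strs (n + 1)).biUnion fun s =>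
    (Finset.range (clkS (en j).2 n + 1)).biUnion fun t => (Q j s t).toFinset with hP
  refine ⟨P, ?_, fun O' hO' j hj s hs t ht => hQ2 j s t O' fun q hq => hO' q ?_⟩
  · have h1 : ∀ (j : ℕ) (s : List Bool), ((Finset.range (clkS (en j).2 n + 1)).biUnion
        fun t => (Q j s t).toFinset).card ≤ (clkS (en j).2 n + 1) ^ 2 := by
      intro j s
      refine Finset.card_biUnion_le.trans ?_
      refine (Finset.sum_le_card_nsmul _ _ (clkS (en j).2 n + 1) fun t ht => ?_).trans ?_
      · rw [Finset.mem_range] at ht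
        exact (List.toFinset_card_le _).trans ((hQ1 j s t).trans ht.le)
      · rw [Finset.card_range, smul_eq_mul, sq]
    have h2 : ∀ j : ℕ, ((strs (n + 1)).biUnion fun s =>
        (Finset.range (clkS (en j).2 n + 1)).biUnion fun t => (Q j s t).toFinset).card ≤
          2 ^ (n + 2) * (clkS (en j).2 n + 1) ^ 2 := by
      intro j
      refine Finset.card_biUnion_le.trans ?_
      refine (Finset.sum_le_card_nsmul _ _ _ fun s _ => h1 j s).trans ?_
      rw [smul_eq_mul]
      exact Nat.mul_le_mul_right _ (strs_card (n + 1))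
    refine Finset.card_biUnion_le.trans ((Finset.sum_le_sum fun j _ => h2 j).trans ?_)
    rw [← Finset.mul_sum]
    have h3 := act_cost hg h n
    calc 2 ^ (n + 2) * ∑ j ∈ act g n, (clkS (en j).2 n + 1) ^ 2 ≤ 2 ^ (n + 2) * 2 ^ n :=
          Nat.mul_le_mul_left _ h3
      _ = 2 ^ (2 * n + 2) := by rw [← pow_add]; congr 1; ring
  · rw [hP, Finset.mem_biUnion]
    refine ⟨j, (mem_act hg).2 hj, ?_⟩
    rw [Finset.mem_biUnion]
    refine ⟨s, mem_strs.2 hs, ?_⟩
    rw [Finset.mem_biUnion]
    exact ⟨t, Finset.mem_range.2 (Nat.lt_succ_of_le ht), List.mem_toFinset.2 hq⟩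

/-- a family of strings that is indexed by the words of length `m` and is not contained in `P` -/
theorem exists_free {P : Finset (List Bool)} {m : ℕ} (hP : P.card < 2 ^ m)
    (f : List Bool → Fm → List Bool)
    (hf : ∀ w w' φ φ', f w φ = f w' φ' → w = w') :
    ∃ w : List Bool, w.length = m ∧ ∀ φ, f w φ ∉ P := by
  classical
  by_contra hcon
  push Not at hcon
  have h1 : ∀ v : List.Vector Bool m, ∃ φ, f v.1 φ ∈ P := fun v => hcon v.1 v.2
  choose φ hφ using h1
  have h2 : Function.Injective (fun v : List.Vector Bool m =>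
      (⟨f v.1 (φ v), hφ v⟩ : {q // q ∈ P})) := by
    intro v v' hv
    exact Subtype.ext (hf _ _ _ _ (congrArg Subtype.val hv))
  have h3 := Fintype.card_le_of_injective _ h2
  rw [card_vector, Fintype.card_bool, Fintype.card_coe] at h3
  omega

/-! ## The choice of a word -/

/-- no string that codes a sentence padded with `w` is asked by the theories which are active at
stage `n` on the strings of length at most `n + 1`, within the clock of the proofs of length `n` -/
def GoodW (en : ℕ → Th) (g : ℕ → ℕ) (n : ℕ) (O : Lang) (w : List Bool) : Prop :=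
  w.length = 2 * n + 3 ∧
  ∀ O' : Lang, (∀ q, (∀ φ, q ≠ true :: cdw w φ) → O' q = O q) →
    ∀ j, g j ≤ n → ∀ s : List Bool, s.length ≤ n + 1 → ∀ t ≤ clkS (en j).2 n,
      run O' (en j).1 s [] t = run O (en j).1 s [] t

theorem exists_word {en : ℕ → Th} {g : ℕ → ℕ} (hg : StrictMono g)
    (h : ∀ s N, g s ≤ N → cost en (s + 1) N < 2 ^ N) (n : ℕ) (O : Lang) :
    ∃ w, GoodW en g n O w := by
  obtain ⟨P, hP1, hP2⟩ := exists_touch hg h n O
  obtain ⟨w, hw, hw2⟩ := exists_free (P := P) (m := 2 * n + 3)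
    (hP1.trans_lt (Nat.pow_lt_pow_right (by norm_num) (by omega)))
    (fun w φ => true :: cdw w φ) (fun w w' φ φ' h => (cdw_inj (List.cons.inj h).2).1)
  refine ⟨w, hw, fun O' hO' => hP2 O' fun q hq => hO' q fun φ hqφ => hw2 φ ?_⟩
  show true :: cdw w φ ∈ P
  rw [← hqφ]
  exact hq

end Pool.Agent.LIN
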