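import Pool.Agent.Lib_helper10.LIN.Act
import Pool.Agent.Lib_helper78.RF.F.SEM
import Pool.Agent.Lib_helper78.RF.F.DEP

/-!
# The construction: plants and codes

At stage `n` first `add n` adds (at most) one string, then the codes of the true sentences of the
stage are added, padded with a word that nobody asks for.
-/

set_option autoImplicit false

namespace Pool.Agent.LIN

open Pool.Agent.CK Pool.Agent.RF

/-- the sentences of stage `n` -/
def Sent (en : ℕ → Th) (g : ℕ → ℕ) (n : ℕ) (σ : Fm) : Prop :=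
  ∃ j k : ℕ, g j ≤ n ∧ k ≤ n ∧ (σ = RFN (en j) k ∨ σ = Con (en j) k)

theorem sent_closed {en : ℕ → Th} {g : ℕ → ℕ} {n : ℕ} {σ : Fm} (h : Sent en g n σ) :
    σ.Closed := by
  obtain ⟨j, k, -, -, h | h⟩ := h
  · rw [h]; exact closed_RFN _ _
  · rw [h]; exact closed_Con _ _

/-- the data of the construction -/
structure Dat where
  /-- the given oracle -/
  R : Lang
  /-- the theories -/
  en : ℕ → Th
  /-- the first stages -/
  g : ℕ → ℕ
  /-- the range of the stages -/
  ρ : ℕ → ℕ
  /-- the words -/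
  wd : ℕ → Lang → List Bool
  /-- the plants -/
  add : ℕ → Lang → Lang

namespace Dat

variable (D : Dat)

open Classical in
/-- the set before stage `n` -/
noncomputable def HS : ℕ → Lang
  | 0 => fun _ => false
  | n + 1 => fun x => D.add n (HS n) x || decide (∃ σ, Sent D.en D.g n σ ∧
      σ.True (join D.R (D.add n (HS n))) ∧ x = cdw (D.wd n (join D.R (D.add n (HS n)))) σ)

/-- the set after the plant of stage `n` -/
noncomputable def AS (n : ℕ) : Lang := D.add n (D.HS n)

/-- the oracle after the plant of stage `n` -/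
noncomputable def OA (n : ℕ) : Lang := join D.R (D.AS n)

/-- the word of stage `n` -/
noncomputable def ws (n : ℕ) : List Bool := D.wd n (D.OA n)

open Classical in
/-- the set -/
noncomputable def HF : Lang := fun x => decide (∃ n, D.AS n x = true)

/-- the oracle -/
noncomputable def OF : Lang := join D.R D.HF

theorem HS_succ (n : ℕ) (x : List Bool) : D.HS (n + 1) x = true ↔
    D.AS n x = true ∨ ∃ σ, Sent D.en D.g n σ ∧ σ.True (D.OA n) ∧ x = cdw (D.ws n) σ := by
  simp only [HS, Bool.or_eq_true, decide_eq_true_eq]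
  rfl

theorem HF_iff (x : List Bool) : D.HF x = true ↔ ∃ n, D.AS n x = true := by
  simp only [HF, decide_eq_true_eq]

/-- the conditions -/
structure Ok : Prop where
  le : ∀ n, n ≤ D.ρ n
  mono : Monotone D.ρ
  words : ∀ n O, GoodW D.en D.g (D.ρ n) O (D.wd n O)
  sub : ∀ n H x, H x = true → D.add n H x = true
  new : ∀ n H x, D.add n H x = true → ¬ H x = true → 4 * n ≤ x.length + 1 ∧ x.head? = some true
  keep : ∀ n H j, D.g j ≤ n → ∀ s : List Bool, s.length ≤ n + 1 → ∀ t ≤ clkS (D.en j).2 n,
    run (join D.R (D.add n H)) (D.en j).1 s [] t = run (join D.R H) (D.en j).1 s [] t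

variable {D}

section

variable (h : D.Ok)
include h

theorem AS_mono {m n : ℕ} (hmn : m ≤ n) {x : List Bool} (hx : D.AS m x = true) :
    D.AS n x = true := by
  induction n, hmn using Nat.le_induction with
  | base => exact hx
  | succ n _ ih => exact h.sub _ _ _ ((D.HS_succ n x).2 (Or.inl ih))

/-- every element comes from a stage -/
theorem AS_elem {m n : ℕ} {x : List Bool} (hx : D.AS n x = true) (hm : ¬ D.AS m x = true) :
    (∃ k, m ≤ k ∧ ∃ σ, Sent D.en D.g k σ ∧ σ.True (D.OA k) ∧ x = cdw (D.ws k) σ) ∨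
      ∃ k, m < k ∧ D.AS k x = true ∧ ¬ D.HS k x = true := by
  have hmn : m < n := by
    by_contra hcon
    exact hm (AS_mono h (Nat.not_lt.1 hcon) hx)
  induction n, (Nat.succ_le_of_lt hmn) using Nat.le_induction with
  | base =>
    by_cases h1 : D.HS (m + 1) x = true
    · rcases (D.HS_succ m x).1 h1 with h2 | h2
      · exact absurd h2 hm
      · exact Or.inl ⟨m, le_rfl, h2⟩
    · exact Or.inr ⟨m + 1, Nat.lt_succ_self m, hx, h1⟩
  | succ n hn ih =>
    by_cases h1 : D.HS (n + 1) x = true
    · rcases (D.HS_succ n x).1 h1 with h2 | h2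
      · exact ih h2 (by omega)
      · exact Or.inl ⟨n, by omega, h2⟩
    · exact Or.inr ⟨n + 1, by omega, hx, h1⟩

/-- every element comes from a stage -/
theorem HF_elem' {x : List Bool} (hx : D.HF x = true) :
    (∃ k, ∃ σ, Sent D.en D.g k σ ∧ σ.True (D.OA k) ∧ x = cdw (D.ws k) σ) ∨
      ∃ k, D.AS k x = true ∧ ¬ D.HS k x = true := by
  obtain ⟨n, hn⟩ := (D.HF_iff x).1 hx
  by_cases h0 : D.AS 0 x = true
  · exact Or.inr ⟨0, h0, by simp [HS]⟩
  · rcases AS_elem h hn h0 with ⟨k, -, h1⟩ | ⟨k, -, h1⟩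
    · exact Or.inl ⟨k, h1⟩
    · exact Or.inr ⟨k, h1⟩

theorem ws_len (k : ℕ) : (D.ws k).length = 2 * D.ρ k + 3 := (h.words k _).1

theorem code_long {k : ℕ} {σ : Fm} : 6 * D.ρ k + 46 ≤ (cdw (D.ws k) σ).length := by
  have h4 := cdw_len (D.ws k) σ
  rw [ws_len h k] at h4
  omega

theorem HF_short {m : ℕ} {x : List Bool} (hx : x.length < 4 * m + 3) : D.HF x = D.AS m x := by
  rw [Bool.eq_iff_iff, D.HF_iff]
  constructor
  · rintro ⟨n, hn⟩
    by_contra hm
    rcases AS_elem h hn hm with ⟨k, hk, σ, -, -, h3⟩ | ⟨k, hk, h1, h2⟩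
    · have h4 := code_long h (k := k) (σ := σ)
      have h5 := h.le k
      rw [← h3] at h4
      omega
    · have h3 := (h.new k _ x h1 h2).1
      omega
  · exact fun h => ⟨m, h⟩

theorem agree_stage (m : ℕ) : Agree (4 * m + 4) D.OF (D.OA m) := by
  intro q hq
  rcases q with _ | ⟨b, q⟩
  · rfl
  · cases b with
    | false => rfl
    | true =>
      rw [List.length_cons] at hq
      exact HF_short h (by omega)

/-- the codes of stage `n` change nothing in the range of the stage -/
theorem run_code {n j : ℕ} (hj : D.g j ≤ n) {s : List Bool} (hs : s.length ≤ D.ρ n + 1) {t : ℕ}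
    (ht : t ≤ clkS (D.en j).2 (D.ρ n)) :
    run (join D.R (D.HS (n + 1))) (D.en j).1 s [] t = run (D.OA n) (D.en j).1 s [] t := by
  refine (h.words n (D.OA n)).2 _ (fun q hq => ?_) j (hj.trans (h.le n)) s hs t ht
  rcases q with _ | ⟨b, q⟩
  · rfl
  · cases b with
    | false => rfl
    | true =>
      show D.HS (n + 1) q = D.AS n q
      rw [Bool.eq_iff_iff, D.HS_succ]
      refine ⟨fun h => h.resolve_right ?_, Or.inl⟩
      rintro ⟨σ, -, -, h3⟩
      exact hq σ (by rw [h3]; rfl)

theorem run_step {n j : ℕ} (hj : D.g j ≤ n) {s : List Bool} (hs : s.length ≤ n + 1) {t : ℕ}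
    (ht : t ≤ clkS (D.en j).2 n) :
    run (D.OA (n + 1)) (D.en j).1 s [] t = run (D.OA n) (D.en j).1 s [] t := by
  have h1 := h.le n
  rw [← run_code h hj (by omega) (ht.trans (QRY_clkS_mono _ h1))]
  exact h.keep (n + 1) _ j (by omega) s (by omega) t (ht.trans (QRY_clkS_mono _ (Nat.le_succ n)))

theorem run_stages {n j : ℕ} (hj : D.g j ≤ n) {s : List Bool} (hs : s.length ≤ n + 1) {t : ℕ}
    (ht : t ≤ clkS (D.en j).2 n) {m : ℕ} (hm : n ≤ m) :
    run (D.OA m) (D.en j).1 s [] t = run (D.OA n) (D.en j).1 s [] t := by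
  induction m, hm using Nat.le_induction with
  | base => rfl
  | succ m hm ih =>
    rw [← ih]
    exact run_step h (hj.trans hm) (by omega) (ht.trans (QRY_clkS_mono _ hm))

theorem run_final {n j : ℕ} (hj : D.g j ≤ n) {s : List Bool} (hs : s.length ≤ n + 1) {t : ℕ}
    (ht : t ≤ clkS (D.en j).2 n) :
    run D.OF (D.en j).1 s [] t = run (D.OA n) (D.en j).1 s [] t := by
  rw [← run_stages (m := n + s.length + t) h hj hs ht (by omega)]
  refine DEP_run_congr (N := 4 * (n + s.length + t) + 4) (by omega) ?_ (agree_stage h _)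
  rw [List.length_nil]
  omega

/-- the computations in the large range of stage `n` are final if all later plants are longer -/
theorem run_large {n b : ℕ} (hb : ∀ m, n < m → ∀ x, D.AS m x = true → ¬ D.HS m x = true →
      b ≤ x.length + 1) {j : ℕ} (hj : D.g j ≤ n) {s : List Bool} (hs : s.length ≤ D.ρ n + 1)
    {t : ℕ} (ht : t ≤ clkS (D.en j).2 (D.ρ n)) (hsb : s.length + t ≤ b) :
    run D.OF (D.en j).1 s [] t = run (D.OA n) (D.en j).1 s [] t := by
  have key : ∀ m, n ≤ m → run (D.OA m) (D.en j).1 s [] t = run (D.OA n) (D.en j).1 s [] t := by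
    intro m hm
    induction m, hm using Nat.le_induction with
    | base => rfl
    | succ m hm ih =>
      have h1 := h.mono hm
      rw [← ih, ← run_code h (hj.trans hm) (by omega) (ht.trans (QRY_clkS_mono _ h1))]
      refine DEP_run_congr (N := b) hsb (by rw [List.length_nil]; omega) ?_
      intro q hq
      rcases q with _ | ⟨c, q⟩
      · rfl
      · cases c with
        | false => rfl
        | true =>
          show D.AS (m + 1) q = D.HS (m + 1) q
          rw [Bool.eq_iff_iff]
          refine ⟨fun h2 => ?_, h.sub _ _ _⟩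
          by_contra h3
          have h4 := hb (m + 1) (by omega) q h2 h3
          rw [List.length_cons] at hq
          omega
  rw [← key (n + s.length + t) (by omega)]
  refine DEP_run_congr (N := 4 * (n + s.length + t) + 4) (by omega) ?_ (agree_stage h _)
  rw [List.length_nil]
  omega

theorem tproof_iff {n j : ℕ} (hj : D.g j ≤ n) {l : List Fm}
    (hl : Nat.size (val (pEnc l)) ≤ n) :
    TProof D.OF (D.en j) l ↔ TProof (D.OA n) (D.en j) l := by
  have h1 : ∀ σ ∈ l, (Accepts D.OF (D.en j).1 σ.enc []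
        (clkS (D.en j).2 (Nat.size (val (pEnc l)))) ↔
      Accepts (D.OA n) (D.en j).1 σ.enc [] (clkS (D.en j).2 (Nat.size (val (pEnc l))))) := by
    intro σ hσ
    unfold Accepts
    have h2 := DEP_mem_len hσ
    have h3 := (size_val (pEnc l)).1
    rw [run_final h hj (by omega) (QRY_clkS_mono _ hl)]
  unfold TProof
  exact ⟨isProof_mono fun σ hσ h => (h1 σ hσ).1 h, isProof_mono fun σ hσ h => (h1 σ hσ).2 h⟩

theorem rfn_iff {n j k : ℕ} (hj : D.g j ≤ n) (hk : k ≤ n) :
    RfnT D.OF (D.en j) k ↔ RfnT (D.OA n) (D.en j) k := by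
  unfold RfnT
  refine forall_congr' fun e => forall_congr' fun x => forall_congr' fun z =>
    forall_congr' fun l => ?_
  refine imp_congr_right fun _ => ?_
  refine imp_congr_right fun hx => imp_congr_right fun hz => imp_congr_right fun hl => ?_
  refine imp_congr (tproof_iff h hj (hl.trans hk)) (MuT_congr ?_)
  exact DEP_agree_mono (by omega) (agree_stage h n)

theorem con_iff {n j k : ℕ} (hj : D.g j ≤ n) (hk : k ≤ n) :
    ConT D.OF (D.en j) k ↔ ConT (D.OA n) (D.en j) k := by
  unfold ConT
  refine forall_congr' fun l => imp_congr_right fun hl => ?_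
  rw [tproof_iff h hj (hl.trans hk)]

theorem sent_true {n : ℕ} {σ : Fm} (hσ : Sent D.en D.g n σ) :
    σ.True D.OF ↔ σ.True (D.OA n) := by
  obtain ⟨j, k, hj, hk, h1 | h1⟩ := hσ
  · rw [h1]
    refine forall_congr' fun v => ?_
    rw [holds_RFN, holds_RFN, rfn_iff h hj hk]
  · rw [h1]
    refine forall_congr' fun v => ?_
    rw [holds_Con, holds_Con, con_iff h hj hk]

/-- the codes are correct -/
theorem code_ok (σ : Fm) (hσ : D.OF (true :: false :: σ.enc) = true) :
    σ.Closed ∧ σ.True D.OF := by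
  have h1 : D.HF (false :: σ.enc) = true := hσ
  rcases HF_elem' h h1 with ⟨k, τ, h2, h3, h4⟩ | ⟨k, h2, h3⟩
  · have h5 : σ = padW (D.ws k) τ := by
      refine (enc_inj (a := []) (b := []) ?_).1
      rw [List.append_nil, List.append_nil]
      exact (List.cons.inj h4).2
    rw [h5]
    exact ⟨padW_closed (sent_closed h2), (padW_true _ _ _).2 ((sent_true h h2).2 h3)⟩
  · have h4 := (h.new k _ _ h2 h3).2
    exact absurd h4 (by simp)

/-- the codes are complete -/
theorem code_full {n : ℕ} {σ : Fm} (hσ : Sent D.en D.g n σ) (ht : σ.True D.OF) :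
    D.OF (true :: false :: (padW (D.ws n) σ).enc) = true := by
  show D.HF (cdw (D.ws n) σ) = true
  rw [D.HF_iff]
  exact ⟨n + 1, h.sub _ _ _ ((D.HS_succ n _).2 (Or.inr ⟨σ, hσ, (sent_true h hσ).1 ht, rfl⟩))⟩

end

end Dat

end Pool.Agent.LIN
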