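import Pool.Agent.Lib_helper10.LIN.Two
import Pool.Agent.Lib_helper64.TD.Notions

/-!
# Sparse oracles do not break trapdoor permutations
-/

set_option autoImplicit false

namespace Pool.Agent.LIN

open Pool.Agent.CK Pool.Agent.CKP Pool.Agent.ADV Pool.Agent.RF Pool.Agent.AIP Pool.Agent.SP
open Pool.Agent.FS (Few)

/-- the simulation: the second input consists of the number of steps in unary, the list of the
elements of the sparse oracle, and the advice -/
def simF (R : Lang) (c : Cmd) (p : List Bool × List Bool) : List Bool :=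
  outU (OvA memL R (fstS (sndS p.2))) (cmdD c) p.1 (sndS (sndS p.2)) (ulen (fstS p.2))

theorem p_outU {γ : Type} [ToD γ] {Ov : γ → Lang} {X : Lang}
    (h : PTime X (fun p : γ × List Bool => Ov p.1 p.2)) {c : γ → D}
    {x y : γ → List Bool} {N : γ → List Unit} (hc : PTime X c)
    (hx : PTime X x) (hy : PTime X y) (hN : PTime X N) :
    PTime X (fun a => CKP.outU (Ov a) (c a) (x a) (y a) (N a)) := by
  have hr := p_runU h hc (PTime.cons hx (PTime.cons hy (PTime.const []))) hN
  exact PTime.headD hr.snd (PTime.const [])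

theorem ovm_ptime (R : Lang) : PTime R (fun p : List Bool × List Bool => OvA memL R p.1 p.2) :=
  OvA_ptime (inP_of memL_ptime) (PTime.ask PTime.id)

theorem hv1 (R : Lang) : PTime R (fun q : (List Bool × List Bool) × List Bool => q.1.2) :=
  PTime.id.fst.snd

theorem hv2 (R : Lang) :
    PTime R (fun q : (List Bool × List Bool) × List Bool => fstS (sndS q.1.2)) :=
  PTime_fstS (PTime_sndS (hv1 R))

theorem hv3 (R : Lang) :
    PTime R (fun q : (List Bool × List Bool) × List Bool => (fstS (sndS q.1.2), q.2)) :=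
  (hv2 R).pair PTime.id.snd

theorem ovm_ptime' (R : Lang) : PTime R (fun q : (List Bool × List Bool) × List Bool =>
    OvA memL R (fstS (sndS q.1.2)) q.2) :=
  PTime.comp (g := fun p : List Bool × List Bool => OvA memL R p.1 p.2)
    (f := fun q : (List Bool × List Bool) × List Bool => (fstS (sndS q.1.2), q.2))
    (ovm_ptime R) (hv3 R)

theorem simF_ptime (R : Lang) (c : Cmd) : PTime R (simF R c) := by
  have h1 : PTime R (fun p : List Bool × List Bool => p.1) := PTime.id.fst
  have h2 : PTime R (fun p : List Bool × List Bool => p.2) := PTime.id.snd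
  have h4 : PTime R (fun p : List Bool × List Bool => sndS (sndS p.2)) :=
    PTime_sndS (PTime_sndS h2)
  have h5 : PTime R (fun p : List Bool × List Bool => ulen (fstS p.2)) :=
    PTime.ulen (PTime_fstS h2)
  have h6 := p_outU (γ := List Bool × List Bool) (Ov := fun p => OvA memL R (fstS (sndS p.2)))
    (c := fun _ => cmdD c) (ovm_ptime' R) (PTime.const (cmdD c)) h1 h4 h5
  exact h6.of_eq fun _ => rfl

theorem simF_eq (R : Lang) (c : Cmd) (x a w : List Bool) (t : ℕ) :
    simF R c (x, pairS (List.replicate t true) (pairS a w)) =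
      (run (OvA memL R a) c x w t).2 0 := by
  unfold simF
  simp only [fstS_pair, sndS_pair, ulen_eq, List.length_replicate]
  rw [outU_eq, List.length_replicate]

theorem secure_lift {R W : Lang} {c0 : ℕ} (hW : Few (fun n => n ^ c0 + c0) W)
    {G F K : List Bool → List Bool} (hT : TD.TrapdoorPermutations R G F K) {T T' : ℕ → ℕ}
    (hTT : ∀ k, ∀ᶠ n in Filter.atTop, (T n + n + 2) ^ k ≤ T' n)
    (hS : TD.Secure R G F T') : TD.Secure (join R W) G F T := by
  obtain ⟨word, hw1, hw2⟩ := exists_words hW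
  intro c
  obtain ⟨c', k, hc'⟩ := two_of (simF_ptime R c)
  filter_upwards [hS c', hTT (2 * (2 * c0 + 10) * (k + 1))] with n h1 h2 w hw t ht
  set M := T n + n + 2 with hM
  set N := 2 * n + 2 * T n with hN
  set u := pairS (List.replicate t true) (pairS (word N) w) with hu
  -- the length of the advice
  have hM2 : 2 * M ≤ M ^ 2 := by
    rw [sq]
    exact Nat.mul_le_mul_right _ (by omega)
  have h3 : (word N).length ≤ (2 * M) ^ (2 * c0 + 4) :=
    (hw1 N).trans (Nat.pow_le_pow_left (by omega) _)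
  have h4 : u.length ≤ 3 * M + 2 * (2 * M) ^ (2 * c0 + 4) := by
    rw [hu, pairS_len, pairS_len, List.length_replicate]
    omega
  have h5 : 5 * M + 2 * (2 * M) ^ (2 * c0 + 4) ≤ (2 * M) ^ (2 * c0 + 10) := by
    have e1 : (2 * M) ^ (2 * c0 + 10) = (2 * M) ^ 6 * (2 * M) ^ (2 * c0 + 4) := by
      rw [← pow_add]; congr 1; ring
    have e2 : 1 ≤ (2 * M) ^ (2 * c0 + 4) := Nat.one_le_pow _ _ (by omega)
    have e3 : 5 * M + 2 ≤ (2 * M) ^ 6 := by
      have e4 : (2 * M) ^ 6 = 64 * (M * M ^ 5) := by ring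
      have e5 : 1 ≤ M ^ 5 := Nat.one_le_pow _ _ (by omega)
      have e6 := Nat.mul_le_mul_left M e5
      omega
    rw [e1]
    generalize (2 * M) ^ (2 * c0 + 4) = X at e2
    generalize (2 * M) ^ 6 = Y at e3
    have e7 := Nat.mul_le_mul_right X e3
    have e8 := Nat.mul_le_mul_left (5 * M) e2
    have e9 : (5 * M + 2) * X = 5 * M * X + 2 * X := by ring
    omega
  have hbig : (2 * M) ^ (2 * c0 + 10) ≤ M ^ (2 * (2 * c0 + 10)) := by
    rw [pow_mul]
    exact Nat.pow_le_pow_left hM2 _
  have hexp : M ^ (2 * (2 * c0 + 10)) ≤ M ^ (2 * (2 * c0 + 10) * (k + 1)) :=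
    Nat.pow_le_pow_right (by omega) (Nat.le_mul_of_pos_right _ (by omega))
  have hul : u.length ≤ T' n := by omega
  have hTle : T n ≤ T' n := by
    refine le_trans ?_ h2
    calc T n ≤ M ^ 1 := by rw [pow_one]; omega
      _ ≤ _ := Nat.pow_le_pow_right (by omega) (by
        have : 1 ≤ (2 * (2 * c0 + 10)) * (k + 1) := Nat.mul_pos (by omega) (by omega)
        exact this)
  -- the simulation
  have key : ∀ p : List Bool × List Bool, p.1.length = n → p.2.length = n →
      (run (join R W) c (G p.1 ++ F (G p.1 ++ p.2)) w t).2 0 =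
        (run R c' (G p.1 ++ F (G p.1 ++ p.2)) u (T' n)).2 0 := by
    intro p hp1 hp2
    set x := G p.1 ++ F (G p.1 ++ p.2) with hx
    have g1 : (G p.1).length = n := (hT.bij_G n).mapsTo hp1
    have g2 : (F (G p.1 ++ p.2)).length = n := by
      have := (hT.bij_F (G p.1)).mapsTo (show p.2.length = (G p.1).length by omega)
      rw [← g1]
      exact this
    have g3 : x.length = 2 * n := by rw [hx, List.length_append]; omega
    have g4 : run (join R W) c x w t = run (OvA memL R (word N)) c x w t := by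
      refine DEP_run_congr (N := N + 1) (by omega) (by omega) ?_
      intro q hq
      rcases q with _ | ⟨b, q⟩
      · rfl
      · cases b with
        | false => rfl
        | true =>
          rw [List.length_cons] at hq
          exact hw2 N q (by omega)
    rw [g4, ← simF_eq, ← hu]
    refine (hc' x u (T' n) ?_).symm
    have g5 : x.length + u.length + 2 ≤ M ^ (2 * (2 * c0 + 10)) := by omega
    calc (x.length + u.length + 2) ^ k ≤ (M ^ (2 * (2 * c0 + 10))) ^ k :=
          Nat.pow_le_pow_left g5 k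
      _ = M ^ (2 * (2 * c0 + 10) * k) := by rw [← pow_mul]
      _ ≤ M ^ (2 * (2 * c0 + 10) * (k + 1)) :=
          Nat.pow_le_pow_right (by omega) (Nat.mul_le_mul_left _ (by omega))
      _ ≤ T' n := h2
  have hcard : Nat.card {p : List Bool × List Bool // p.1.length = n ∧ p.2.length = n ∧
        (run (join R W) c (G p.1 ++ F (G p.1 ++ p.2)) w t).2 0 = p.2} =
      Nat.card {p : List Bool × List Bool // p.1.length = n ∧ p.2.length = n ∧
        (run R c' (G p.1 ++ F (G p.1 ++ p.2)) u (T' n)).2 0 = p.2} := by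
    refine Nat.card_congr (Equiv.subtypeEquivRight fun p => ?_)
    refine and_congr_right fun hp1 => and_congr_right fun hp2 => ?_
    rw [key p hp1 hp2]
  rw [hcard]
  exact lt_of_le_of_lt (Nat.mul_le_mul_right _ hTle) (h1 u hul (T' n) le_rfl)

/-! ## A slower function -/

theorem exists_slower {β : ℕ → ℕ} (hβ : Filter.Tendsto β Filter.atTop Filter.atTop) :
    ∃ β' : ℕ → ℕ, Filter.Tendsto β' Filter.atTop Filter.atTop ∧
      ∀ k, ∀ᶠ n in Filter.atTop, (2 ^ (n / β n) + n + 2) ^ k ≤ 2 ^ (n / β' n) := by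
  refine ⟨fun n => min (Nat.sqrt (β n)) (Nat.sqrt (Nat.sqrt n)), ?_, fun k => ?_⟩
  · rw [Filter.tendsto_atTop]
    intro b
    filter_upwards [Filter.tendsto_atTop.1 hβ (b * b),
      Filter.eventually_ge_atTop ((b * b) * (b * b))] with n h1 h2
    exact le_min (Nat.le_sqrt.2 h1) (Nat.le_sqrt.2 (Nat.le_sqrt.2 h2))
  · -- numbers
    have hev : ∀ᶠ m : ℕ in Filter.atTop, (2 * m + 4) ^ (2 * k) < 2 ^ m :=
      SEQ_lt (SEQ_pow (SEQ_add (SEQ_mul (SEQ_const 2) SEQ_id) (SEQ_const 4)) (2 * k))
    obtain ⟨m0, hm0⟩ := hev.exists_forall_of_atTop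
    set b := 2 * k + 2 * m0 + 2 with hb
    filter_upwards [Filter.tendsto_atTop.1 hβ (b * b),
      Filter.eventually_ge_atTop ((b * b) * (b * b))] with n h1 h2
    set s := min (Nat.sqrt (β n)) (Nat.sqrt (Nat.sqrt n)) with hs
    have hbs : b ≤ s := le_min (Nat.le_sqrt.2 h1) (Nat.le_sqrt.2 (Nat.le_sqrt.2 h2))
    have hs1 : s * s ≤ β n := Nat.le_sqrt.1 (min_le_left _ _)
    have hs2 : s * s ≤ Nat.sqrt n := Nat.le_sqrt.1 (min_le_right _ _)
    have hs3 : (s * s) * (s * s) ≤ n := Nat.le_sqrt.1 hs2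
    have hs0 : 0 < s := by omega
    set q := n / s with hq
    have hq1 : s * s * s ≤ q := by
      rw [hq, Nat.le_div_iff_mul_le hs0]
      calc s * s * s * s = (s * s) * (s * s) := by ring
        _ ≤ n := hs3
    have hsq : s ≤ q := by
      refine le_trans ?_ hq1
      calc s = 1 * 1 * s := by ring
        _ ≤ s * s * s := Nat.mul_le_mul_right _ (Nat.mul_le_mul hs0 hs0)
    have h3 : n / β n ≤ q / s := by
      rw [hq, Nat.div_div_eq_div_mul]
      exact Nat.div_le_div_left hs1 (Nat.mul_pos hs0 hs0)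
    have h4 : n + 3 ≤ (q + 2) ^ 2 := by
      have h5 : n < (q + 1) * s := by
        rw [hq, Nat.add_mul, Nat.one_mul]
        exact Nat.lt_div_mul_add hs0
      have h6 : (q + 1) * s ≤ (q + 1) * q := Nat.mul_le_mul_left _ hsq
      have h7 : (q + 2) ^ 2 = (q + 1) * q + (3 * q + 4) := by ring
      omega
    set m := q / 2 with hm
    have h5 : (q + 2) ^ (2 * k) ≤ 2 ^ m := by
      refine le_trans (Nat.pow_le_pow_left ?_ _) (hm0 m ?_).le
      · omega
      · omega
    have h6 : k * (q / s) ≤ m := by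
      rw [hm, Nat.le_div_iff_mul_le (by norm_num)]
      calc k * (q / s) * 2 = (2 * k) * (q / s) := by ring
        _ ≤ s * (q / s) := Nat.mul_le_mul_right _ (by omega)
        _ ≤ q := Nat.mul_div_le q s
    have h7 : 2 ^ (n / β n) + n + 2 ≤ 2 ^ (q / s) * (n + 3) := by
      have h8 : 2 ^ (n / β n) ≤ 2 ^ (q / s) := Nat.pow_le_pow_right (by norm_num) h3
      have h9 := Nat.one_le_two_pow (n := q / s)
      have h10 := Nat.mul_le_mul_right (n + 2) h9
      have h11 : 2 ^ (q / s) * (n + 3) = 2 ^ (q / s) + 2 ^ (q / s) * (n + 2) := by ring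
      omega
    calc (2 ^ (n / β n) + n + 2) ^ k ≤ (2 ^ (q / s) * (n + 3)) ^ k := Nat.pow_le_pow_left h7 k
      _ = 2 ^ (k * (q / s)) * (n + 3) ^ k := by rw [mul_pow, ← pow_mul, mul_comm (q / s) k]
      _ ≤ 2 ^ m * ((q + 2) ^ 2) ^ k :=
          Nat.mul_le_mul (Nat.pow_le_pow_right (by norm_num) h6) (Nat.pow_le_pow_left h4 k)
      _ = 2 ^ m * (q + 2) ^ (2 * k) := by rw [← pow_mul]
      _ ≤ 2 ^ m * 2 ^ m := Nat.mul_le_mul_left _ h5
      _ = 2 ^ (m + m) := (pow_add 2 m m).symm
      _ ≤ 2 ^ q := Nat.pow_le_pow_right (by norm_num) (by omega)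

end Pool.Agent.LIN
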