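import Pool.Agent.Lib_helper10.LIN.Main
import Pool.Agent.Lib_helper10.LIN.Sec
import Pool.Agent.Lib_helper78.PLS.InfPH
import Pool.Agent.Lib_helper78.SP.Tri
import Pool.Agent.Lib_helper82.TPR.Main

/-!
# The theorem, with an infinite hierarchy and trapdoor permutations
-/

set_option autoImplicit false

namespace Pool.Agent.LIN

open Pool.Agent.CK Pool.Agent.CKP Pool.Agent.RF Pool.Agent.PHS Pool.Agent.FS Pool.Agent.PLS
open Pool.Agent.SP (NoCollapse sparse_collapse)
open Filter

/-- **Every growth rate from linear to subexponential is the length of the proofs of finite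
reflection and consistency, relative to oracles with an infinite hierarchy and trapdoor
permutations.** -/
theorem spectrumPH (R : Lang) (β : ℕ → ℕ) (hβ : Tendsto β atTop atTop) {h : ℕ → ℕ}
    (h0 : Monotone h) (h1 : ∀ n, n ≤ h n) (h2 : ∀ k, ∀ᶠ n in atTop, h n ^ k ≤ 2 ^ n) :
    ∃ O : Lang, InP O R ∧ (∃ B, BaseTheory O B) ∧ Upper O (fun n => 17 * h n) ∧
      Lower O (fun n => h (n / 4096)) ∧ InfinitePH O ∧
      ∃ G F K, TD.TrapdoorPermutations O G F K ∧ TD.Secure O G F (fun n => 2 ^ (n / β n)) := by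
  obtain ⟨β', hβ', hββ'⟩ := exists_slower hβ
  obtain ⟨O, g1, -, g3, G, F, K, g4, g5⟩ := infPH R β' hβ'
  obtain ⟨W, k1, k2, k3, k4⟩ := spectrum O h0 h1 h2
  refine ⟨join O W, ?_, k2, k3, k4, ?_, G, F, K, TPR.tdp_lift g4, secure_lift k1 g4 hββ' g5⟩
  · exact AFF.sub_InP (PTime.lift (PTime.ask PTime.id)) g1
  · have h6 : NoCollapse O W := fun k h => sparse_collapse k1 k h
    exact fun k => h6.infinite g3 k

end Pool.Agent.LIN
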