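import Pool.Agent.Lib_helper57.PX.Arith

/-! # The best possible length of the proofs relative to an oracle (MP_5c38ab_lc) -/

set_option autoImplicit false

namespace Pool.Agent.PX

/-- Base theories exist, and for every base theory `B`

* (upper bound) there is a theory `S` in the class such that for every theory `T` in the class there
  is a constant `c` such that, for all `n`, both `Σ^b_1RFN_T(n)` and `Con_T(n)` have `S`-proofs of
  length at most `hi n + c`;
* (lower bound) for every `S` in the class there is `T` in the class such that, for infinitely many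
  `n`, all `S`-proofs of `Σ^b_1RFN_T(n)` and all `S`-proofs of `Con_T(n)` are longer than `lo n`.

(The class: consistent theories that contain `B`, with axioms decidable in polynomial time with
oracle `O`.) -/
def LengthsBetween (O : Lang) (lo hi : ℕ → ℕ) : Prop :=
  (∃ B, BaseTheory O B) ∧ ∀ B, BaseTheory O B →
    (∃ (p : Cmd) (k : ℕ), InT O B p k ∧ ∀ (q : Cmd) (m : ℕ), InT O B q m → ∃ c : ℕ, ∀ n,
      (∃ l, ProofOf (Ax O p k) (RFN q m n) l ∧ (pEnc l).length ≤ hi n + c) ∧
      ∃ l, ProofOf (Ax O p k) (Con q m n) l ∧ (pEnc l).length ≤ hi n + c) ∧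
    ∀ (p : Cmd) (k : ℕ), InT O B p k → ∃ (q : Cmd) (m : ℕ), InT O B q m ∧
      ∀ n₀, ∃ n, n₀ ≤ n ∧ ∀ l, ProofOf (Ax O p k) (RFN q m n) l ∨ ProofOf (Ax O p k) (Con q m n) l →
        lo n < (pEnc l).length

end Pool.Agent.PX
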