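import Pool.Agent.Lib_helper78.RF.F.PRV
import Pool.Agent.Lib_helper78.RF.F.ENC
import Pool.Agent.Lib_helper78.RF.F.VAL

/-!
# Sentences padded with a word
-/

set_option autoImplicit false

namespace Pool.Agent.LIN

open Pool.Agent.CK Pool.Agent.RF

/-- a closed term which codes the word -/
def tw : List Bool → Tm
  | [] => .zero
  | false :: l => .succ (tw l)
  | true :: l => .half (tw l)

/-- a logical axiom which contains the word -/
def kax (w : List Bool) : Fm :=
  .imp (.eq .zero .zero) (.imp (.eq (tw w) .zero) (.eq .zero .zero))

/-- the sentence `φ`, padded with the word `w` -/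
def padW (w : List Bool) (φ : Fm) : Fm := .imp (kax w) φ

theorem kax_log (w : List Bool) : Logical (kax w) := Logical.k _ _

theorem tw_inj : ∀ {w w' : List Bool}, tw w = tw w' → w = w'
  | [], [], _ => rfl
  | [], false :: l', h => by simp [tw] at h
  | [], true :: l', h => by simp [tw] at h
  | false :: l, [], h => by simp [tw] at h
  | true :: l, [], h => by simp [tw] at h
  | false :: l, true :: l', h => by simp [tw] at h
  | true :: l, false :: l', h => by simp [tw] at h
  | false :: l, false :: l', h => by
    simp only [tw, Tm.succ.injEq] at h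
    rw [tw_inj h]
  | true :: l, true :: l', h => by
    simp only [tw, Tm.half.injEq] at h
    rw [tw_inj h]

theorem tw_has (i : ℕ) : ∀ w : List Bool, ¬ (tw w).has i
  | [] => fun h => h
  | false :: l => tw_has i l
  | true :: l => tw_has i l

theorem tw_len : ∀ w : List Bool, 3 * w.length + 2 ≤ (tw w).enc.length ∧
    (tw w).enc.length ≤ 4 * w.length + 2
  | [] => by simp [tw, Tm.enc, VAL_tag_len]
  | false :: l => by
    have h := tw_len l
    simp only [tw, Tm.enc, List.length_append, VAL_tag_len, List.length_cons]
    omega
  | true :: l => by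
    have h := tw_len l
    simp only [tw, Tm.enc, List.length_append, VAL_tag_len, List.length_cons]
    omega

theorem kax_len (w : List Bool) : (kax w).enc.length = 27 + (tw w).enc.length := by
  simp only [kax, Fm.enc, Tm.enc, List.length_append, VAL_tag_len]
  omega

theorem padW_len (w : List Bool) (φ : Fm) :
    (padW w φ).enc.length = 34 + (tw w).enc.length + φ.enc.length := by
  simp only [padW, Fm.enc, List.length_append, VAL_tag_len, kax_len]
  omega

theorem padW_inj {w w' : List Bool} {φ φ' : Fm} (h : padW w φ = padW w' φ') :
    w = w' ∧ φ = φ' := by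
  unfold padW kax at h
  injection h with h1 h2
  injection h1 with h3 h4
  injection h4 with h5 h6
  injection h5 with h7 h8
  exact ⟨tw_inj h7, h2⟩

theorem padW_true (O : Lang) (w : List Bool) (φ : Fm) : (padW w φ).True O ↔ φ.True O := by
  constructor
  · intro h v
    exact h v (fun h1 _ => h1)
  · intro h v _
    exact h v

theorem padW_closed {w : List Bool} {φ : Fm} (h : φ.Closed) : (padW w φ).Closed := by
  intro i hi
  rcases hi with hi | hi
  · simp only [kax, Fm.free, Tm.has] at hi
    have := tw_has i w
    tauto
  · exact h i hi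

/-- the proof of `φ` from the padded sentence -/
theorem padW_proof {A : Fm → Prop} {w : List Bool} {φ : Fm} (h : A (padW w φ)) :
    ∃ l, IsProof A (l ++ [φ]) ∧
      (pEnc (l ++ [φ])).length ≤ 8 * w.length + 65 + 2 * φ.enc.length := by
  have h1 : IsProof A ([] ++ [padW w φ]) := prv_snoc (prv_nil A) (Or.inr (Or.inl h))
  have h2 : IsProof A (([] ++ [padW w φ]) ++ [kax w]) := prv_snoc h1 (Or.inl (kax_log w))
  refine ⟨([] ++ [padW w φ]) ++ [kax w],
    prv_snoc h2 (Or.inr (Or.inr ⟨kax w, ?_, ?_⟩)), ?_⟩
  · simp
  · simp [padW]
  · have h3 := (tw_len w).2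
    simp only [pEnc, List.nil_append, List.cons_append, List.map_cons, List.map_nil,
      List.flatten_cons, List.flatten_nil, List.length_append, List.length_nil, padW_len, kax_len]
    omega

/-- the strings that code padded sentences; they are asked as `1 0 …` -/
def cdw (w : List Bool) (φ : Fm) : List Bool := false :: (padW w φ).enc

theorem cdw_inj {w w' : List Bool} {φ φ' : Fm} (h : cdw w φ = cdw w' φ') : w = w' ∧ φ = φ' := by
  unfold cdw at h
  have h1 := (List.cons.inj h).2
  exact padW_inj (enc_inj (a := []) (b := []) (by rw [List.append_nil, List.append_nil, h1])).1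

theorem cdw_len (w : List Bool) (φ : Fm) : 3 * w.length + 37 ≤ (cdw w φ).length := by
  unfold cdw
  rw [List.length_cons, padW_len]
  have := (tw_len w).1
  omega

end Pool.Agent.LIN
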