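import Pool.Agent.Lib_helper10.LIN.Spec

/-!
# The theorem
-/

set_option autoImplicit false

namespace Pool.Agent.LIN

open Pool.Agent.CK Pool.Agent.RF Pool.Agent.RO Pool.Agent.ADV Pool.Agent.FS Pool.Agent.PLS Filter

/-- the bound on the lengths of the questions of level `s`, as a function of the level -/
def bnd (P : Prm) (m : ℕ) : ℕ := P.f (4096 * 2 ^ (m - 1)) + 2 +
  ∑ j ∈ act P.g (2 ^ (m - 1)), clkS (P.en j).2 (P.f (4096 * 2 ^ (m - 1)))

/-- the conditions on the parameters -/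
structure Good (P : Prm) (wd : ℕ → Lang → List Bool) : Prop where
  gm : StrictMono P.g
  cost : ∀ s N, P.g s ≤ N → cost P.en (s + 1) N < 2 ^ N
  fm : Monotone P.f
  fle : ∀ n, n ≤ P.f (4096 * n)
  words : ∀ n O, GoodW P.en P.g (P.f (4096 * n)) O (wd n O)
  lm : StrictMono P.lv
  l8 : ∀ s, 8 ≤ P.lv s
  lb : ∀ s, bnd P (P.lv s) < P.lv (s + 1)

/-- the data of the construction -/
noncomputable def dat (P : Prm) (wd : ℕ → Lang → List Bool) : Dat :=
  ⟨P.R, P.en, P.g, fun n => P.f (4096 * n), wd, P.add⟩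

section

variable {P : Prm} {wd : ℕ → Lang → List Bool} (h : Good P wd)
include h

theorem dat_ok : (dat P wd).Ok where
  le n := h.fle n
  mono := fun a b hab => h.fm (Nat.mul_le_mul_left _ hab)
  words := h.words
  sub := P.add_sub
  new n H x hx hx' := by
    obtain ⟨-, s, hs, hp⟩ := P.add_new hx hx'
    rw [hs]
    exact ⟨P.plant_len (h.l8 s) hp, P.plant_head hp⟩
  keep n H := P.add_keep n H

theorem nz_mono : StrictMono P.nz := by
  intro a b hab
  unfold Prm.nz
  have h1 := h.lm hab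
  have h2 := h.l8 a
  exact Nat.pow_lt_pow_right (by norm_num) (by omega)

theorem nz_inj {s s' : ℕ} (hs : P.nz s = P.nz s') : s = s' := (nz_mono h).injective hs

theorem le_nz (s : ℕ) : s ≤ P.nz s := (nz_mono h).le_apply

theorem le_lv (s : ℕ) : s ≤ P.lv s := h.lm.le_apply

/-- later plants are long -/
theorem late {s m : ℕ} (hm : P.nz s < m) {x : List Bool} (h1 : (dat P wd).AS m x = true)
    (h2 : ¬ (dat P wd).HS m x = true) : bnd P (P.lv s) ≤ x.length + 1 := by
  obtain ⟨-, s', hs', hp⟩ := P.add_new (n := m) (H := (dat P wd).HS m) h1 h2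
  have h3 : s < s' := by
    rw [hs'] at hm
    exact (nz_mono h).lt_iff_lt.1 hm
  have h4 : P.lv (s + 1) ≤ P.lv s' := h.lm.monotone h3
  have h5 := h.lb s
  have h6 := P.plant_len (h.l8 s') hp
  have h7 : P.lv s' ≤ P.nz s' := by
    unfold Prm.nz
    have h8 := h.l8 s'
    have h9 : P.lv s' - 1 < 2 ^ (P.lv s' - 1) := Nat.lt_two_pow_self
    omega
  omega

/-- the checks of short `S`-proofs at level `s` are final after the plant of the level -/
theorem short_iff {s j : ℕ} (hj : P.g j ≤ P.nz s) {T : Th} :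
    Short (dat P wd).OF (P.en j) T (P.NN s) (P.f (P.NN s)) ↔
      Short ((dat P wd).OA (P.nz s)) (P.en j) T (P.NN s) (P.f (P.NN s)) := by
  set L := P.f (P.NN s) with hL
  have hbL : bnd P (P.lv s) = L + 2 + ∑ i ∈ act P.g (P.nz s), clkS (P.en i).2 L := rfl
  have hsum : clkS (P.en j).2 L ≤ ∑ i ∈ act P.g (P.nz s), clkS (P.en i).2 L :=
    Finset.single_le_sum (f := fun i => clkS (P.en i).2 L) (fun _ _ => Nat.zero_le _)
      ((mem_act h.gm).2 hj)
  have key : ∀ σ : Fm, σ.enc.length ≤ L →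
      (Ax (dat P wd).OF (P.en j) σ ↔ Ax ((dat P wd).OA (P.nz s)) (P.en j) σ) := by
    intro σ hσ
    have h1 : (σ.enc.length + 2) ^ (P.en j).2 ≤ clkS (P.en j).2 L :=
      (clkS_ge _ _).trans (QRY_clkS_mono _ hσ)
    have h2 := Dat.run_large (dat_ok h) (n := P.nz s) (b := bnd P (P.lv s))
      (fun m hm x hx hx' => late h hm hx hx') (j := j) hj (s := σ.enc)
      (t := (σ.enc.length + 2) ^ (P.en j).2) (by
        show σ.enc.length ≤ L + 1
        omega) h1 (by omega)
    unfold Ax Accepts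
    exact iff_of_eq (congrArg (fun c : Config => c.1 = [] ∧ (c.2 0).head? = some true) h2)
  constructor
  · rintro ⟨l, Φ, hΦ, hl, hlen⟩
    refine ⟨l, Φ, hΦ, isProof_mono (fun σ hσ hA => (key σ ?_).1 hA) hl, hlen⟩
    exact (QRY_mem_len hσ).trans hlen
  · rintro ⟨l, Φ, hΦ, hl, hlen⟩
    refine ⟨l, Φ, hΦ, isProof_mono (fun σ hσ hA => (key σ ?_).2 hA) hl, hlen⟩
    exact (QRY_mem_len hσ).trans hlen

/-- the plants with the prefix of a pair -/
theorem planted {j : ℕ} {T : Th} {y : List Bool}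
    (hy : (dat P wd).OF (true :: (pfxT T j ++ y)) = true) (hh : (pfxT T j).head? = some true) :
    ∃ s, P.g j ≤ P.nz s ∧ (pfxT T j).length ≤ P.lv s ∧ y.length + 1 = 2 ^ (P.lv s + 1) ∧
      Short (dat P wd).OF (P.en j) T (P.NN s) (P.f (P.NN s)) := by
  have h1 : (dat P wd).HF (pfxT T j ++ y) = true := hy
  rcases Dat.HF_elem' (dat_ok h) h1 with ⟨k, σ, -, -, h3⟩ | ⟨k, h2, h3⟩
  · exfalso
    rcases hp : pfxT T j with _ | ⟨b, p⟩
    · rw [hp] at hh
      simp at hh
    · rw [hp] at hh h3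
      unfold cdw at h3
      have h4 := (List.cons.inj h3).1
      rw [h4] at hh
      simp at hh
  · obtain ⟨h4, s, hs, hp⟩ := P.add_new (n := k) (H := (dat P wd).HS k) h2 h3
    subst hs
    obtain ⟨y', hy', hy2⟩ := hp.str
    have h5 : pfxT T j ++ y = pfxT (P.cl (Prm.ix s)).2 (P.cl (Prm.ix s)).1 ++ y' := hy'
    obtain ⟨h6, h7, h8⟩ := pfxT_inj h5
    have hpf : P.pf (Prm.ix s) = pfxT T j := by
      unfold Prm.pf
      rw [← h6, ← h7]
    have g1 := hp.act
    have g2 := hp.pre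
    have g3 := hp.short
    rw [← h7] at g1 g3
    rw [← h6] at g3
    rw [hpf] at g2
    refine ⟨s, g1, g2, by rw [h8]; exact hy2, (short_iff h g1).2 ?_⟩
    have g4 : (dat P wd).OA (P.nz s) = join P.R (ins (pfxT T j ++ y) ((dat P wd).HS (P.nz s))) := by
      show join P.R (P.add (P.nz s) ((dat P wd).HS (P.nz s))) = _
      rw [h4]
    rw [g4]
    exact g3

end

end Pool.Agent.LIN
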