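import Pool.Agent.Lib_helper78.SP.Few
import Pool.Agent.Lib_helper74.NE.Bridge

/-!
# Machines with two inputs
-/

set_option autoImplicit false

namespace Pool.Agent.LIN

open Pool.Agent.CK Pool.Agent.CKP

variable {O : Lang}

/-- the program that computes `f (x, y)` from the inputs `x`, `y` -/
def twoP (p : Cmd) : Cmd :=
  .seq (mv 0 2) (.seq (.push 0 false) (.seq (conv 2) (.seq (mv 1 2) (.seq (.push 0 false)
    (.seq (conv 2) (.seq (.push 0 true) (.seq p unDP)))))))

theorem two_of {f : List Bool × List Bool → List Bool} (hf : PTime O f) :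
    ∃ (c : Cmd) (k : ℕ), ∀ (x y : List Bool) (t : ℕ), (x.length + y.length + 2) ^ k ≤ t →
      (run O c x y t).2 0 = f (x, y) := by
  have hf' : PTime O (fun q : List Bool × List Bool => f (q.2, q.1)) :=
    hf.comp (PTime.id.snd.pair PTime.id.fst)
  obtain ⟨Q, hQ⟩ := hf'.size_le
  obtain ⟨F, ⟨p, m, P, hp, hm, h⟩, hF⟩ := hf'
  obtain ⟨k, hk⟩ := exists_pow (32 * Polynomial.X + 60 + P.comp (4 * Polynomial.X + 3) +
    17 * Q.comp (4 * Polynomial.X + 3))
  refine ⟨twoP p, k, fun x y t ht => ?_⟩
  have hi : init x y = S4 (fun _ => []) x y [] [] := by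
    funext r
    match r with
    | 0 => rfl
    | 1 => rfl
    | 2 => rfl
    | 3 => rfl
    | n + 4 => rfl
  have hS : ∀ a r, 1 ≤ r → S4 (fun _ => []) a [] [] [] r = [] := by
    intro a r hr
    match r, hr with
    | 1, _ => rfl
    | 2, _ => rfl
    | 3, _ => rfl
    | n + 4, _ => rfl
  have e1 : Ex O (mv 0 2) (init x y) (S4 (fun _ => []) [] y x.reverse []) (5 * x.length + 1) := by
    have := mv_ex (O := O) (r := 0) (s := 2) (by decide) x (init x y) rfl
    rw [hi, S4_u2, S4_u0] at this
    rw [hi]
    simpa [S4] using this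
  have e2 : Ex O (.push 0 false) (S4 (fun _ => []) [] y x.reverse [])
      (S4 (fun _ => []) [false] y x.reverse []) 1 := by
    have := Ex.push (O := O) 0 false (S4 (fun _ => []) [] y x.reverse [])
    rw [S4_u0] at this
    exact this
  have e3 : Ex O (conv 2) (S4 (fun _ => []) [false] y x.reverse [])
      (S4 (fun _ => []) (toD x).enc y [] []) (11 * x.length + 1) := by
    have := conv_ex (O := O) (r := 2) (by decide) x.reverse [] []
      (S4 (fun _ => []) [false] y x.reverse []) rfl rfl
    rw [S4_u2, S4_u0] at this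
    simpa using this
  have e4 : Ex O (mv 1 2) (S4 (fun _ => []) (toD x).enc y [] [])
      (S4 (fun _ => []) (toD x).enc [] y.reverse []) (5 * y.length + 1) := by
    have := mv_ex (O := O) (r := 1) (s := 2) (by decide) y
      (S4 (fun _ => []) (toD x).enc y [] []) rfl
    rw [S4_u2, S4_u1] at this
    simpa [S4] using this
  have e5 : Ex O (.push 0 false) (S4 (fun _ => []) (toD x).enc [] y.reverse [])
      (S4 (fun _ => []) (false :: (toD x).enc) [] y.reverse []) 1 := by
    have := Ex.push (O := O) 0 false (S4 (fun _ => []) (toD x).enc [] y.reverse [])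
    rw [S4_u0] at this
    exact this
  have e6 : Ex O (conv 2) (S4 (fun _ => []) (false :: (toD x).enc) [] y.reverse [])
      (S4 (fun _ => []) ((toD y).enc ++ (toD x).enc) [] [] []) (11 * y.length + 1) := by
    have := conv_ex (O := O) (r := 2) (by decide) y.reverse [] (toD x).enc
      (S4 (fun _ => []) (false :: (toD x).enc) [] y.reverse []) rfl rfl
    rw [S4_u2, S4_u0] at this
    simpa using this
  have e7 : Ex O (.push 0 true) (S4 (fun _ => []) ((toD y).enc ++ (toD x).enc) [] [] [])
      (S4 (fun _ => []) (toD (y, x)).enc [] [] []) 1 := by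
    have := Ex.push (O := O) 0 true (S4 (fun _ => []) ((toD y).enc ++ (toD x).enc) [] [] [])
    rw [S4_u0] at this
    exact this
  have e8 : Ex O p (S4 (fun _ => []) (toD (y, x)).enc [] [] [])
      (S4 (fun _ => []) (toD (f (x, y))).enc [] [] []) (P.eval (toD (y, x)).size) := by
    have := h (toD (y, x)) (S4 (fun _ => []) (toD (y, x)).enc [] [] []) ⟨(y, x), rfl⟩ rfl
      (fun r hr _ => hS _ r hr)
    rw [S4_u0, hF] at this
    exact this
  have e9 : Ex O unDP (S4 (fun _ => []) (toD (f (x, y))).enc [] [] [])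
      (S4 (fun _ => []) (f (x, y)) [] [] []) (17 * (f (x, y)).length + 10) := by
    have := unDP_ex (O := O) (f (x, y)) (S4 (fun _ => []) (toD (f (x, y))).enc [] [] []) rfl rfl
    rw [S4_u0] at this
    exact this
  obtain ⟨t', ht', he⟩ := e1.seq (e2.seq (e3.seq (e4.seq (e5.seq (e6.seq (e7.seq (e8.seq e9)))))))
  have hsz : (toD (y, x)).size ≤ 4 * (x.length + y.length) + 3 := by
    have h1 : (toD (y, x)).size = (toD y).size + (toD x).size + 1 := rfl
    have h2 := size_bits x
    have h3 := size_bits y
    omega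
  have hT : t' ≤ t := by
    refine ht'.trans (le_trans ?_ ((hk (x.length + y.length)).trans ht))
    have h1 := poly_mono P hsz
    have h2 := hQ (y, x)
    have h3 := poly_mono Q hsz
    have h4 : (f (x, y)).length ≤ sz (f (x, y)) := length_le_sz _
    have h5 : Q.eval (sz (y, x)) = Q.eval (toD (y, x)).size := rfl
    simp only [Polynomial.eval_comp, Polynomial.eval_add, Polynomial.eval_mul,
      Polynomial.eval_ofNat, Polynomial.eval_X]
    simp only at h2
    omega
  have hrun := he.run hT
  show (run O (twoP p) x y t).2 0 = f (x, y)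
  unfold twoP
  rw [hrun]
  rfl

end Pool.Agent.LIN
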